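import Pool.Agent.helper95.M4.Chk

/-!
# Project M4 (MP_1b8d20_an, S03975), block I: algebra of the Markoff triples and the algorithm
-/

set_option autoImplicit false

namespace Pool.Agent.M4

open Complex ComplexConjugate

/-! ## Norms -/

theorem ALG_nsub (X Y : ℂ) : normSq (X - I * Y) = normSq X + normSq Y - 2 * (X * conj Y).im := by
  simp only [normSq_apply, sub_re, sub_im, mul_re, mul_im, I_re, I_im, conj_re, conj_im]
  ring

theorem ALG_nadd (X Y : ℂ) : normSq (X + I * Y) = normSq X + normSq Y + 2 * (X * conj Y).im := by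
  simp only [normSq_apply, add_re, add_im, mul_re, mul_im, I_re, I_im, conj_re, conj_im]
  ring

theorem ALG_lt {X Y : ℂ} : ‖X‖ < ‖Y‖ ↔ normSq X < normSq Y := by
  rw [normSq_eq_norm_sq, normSq_eq_norm_sq]
  exact (sq_lt_sq₀ (norm_nonneg _) (norm_nonneg _)).symm

theorem ALG_le {X Y : ℂ} : ‖X‖ ≤ ‖Y‖ ↔ normSq X ≤ normSq Y := by
  rw [normSq_eq_norm_sq, normSq_eq_norm_sq]
  exact (sq_le_sq₀ (norm_nonneg _) (norm_nonneg _)).symm

/-- `‖X - iY‖ < ‖Z‖` in terms of squares. -/
theorem ALG_slt {X Y Z : ℂ} : ‖X - I * Y‖ < ‖Z‖ ↔ normSq X + normSq Y - normSq Z < 2 * (X * conj Y).im := by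
  rw [ALG_lt, ALG_nsub]; constructor <;> intro h <;> linarith

theorem ALG_sle {X Y Z : ℂ} : ‖X - I * Y‖ ≤ ‖Z‖ ↔ normSq X + normSq Y - normSq Z ≤ 2 * (X * conj Y).im := by
  rw [ALG_le, ALG_nsub]; constructor <;> intro h <;> linarith

theorem ALG_gts {X Y Z : ℂ} : ‖Z‖ < ‖X - I * Y‖ ↔ 2 * (X * conj Y).im < normSq X + normSq Y - normSq Z := by
  rw [ALG_lt, ALG_nsub]; constructor <;> intro h <;> linarith

theorem ALG_ges {X Y Z : ℂ} : ‖Z‖ ≤ ‖X - I * Y‖ ↔ 2 * (X * conj Y).im ≤ normSq X + normSq Y - normSq Z := by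
  rw [ALG_le, ALG_nsub]; constructor <;> intro h <;> linarith

theorem ALG_gta {X Y Z : ℂ} : ‖Z‖ < ‖X + I * Y‖ ↔ -(2 * (X * conj Y).im) < normSq X + normSq Y - normSq Z := by
  rw [ALG_lt, ALG_nadd]; constructor <;> intro h <;> linarith

theorem ALG_gea {X Y Z : ℂ} : ‖Z‖ ≤ ‖X + I * Y‖ ↔ -(2 * (X * conj Y).im) ≤ normSq X + normSq Y - normSq Z := by
  rw [ALG_le, ALG_nadd]; constructor <;> intro h <;> linarith

/-! ## Relations between the six products -/

theorem ALG_pyth (X Y : ℂ) : (X * conj Y).re ^ 2 + (X * conj Y).im ^ 2 = normSq X * normSq Y := by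
  simp only [normSq_apply, mul_re, mul_im, conj_re, conj_im]; ring

/-- `sin gamma = sin (alpha + beta)` -/
theorem ALG_r1 (L N R : ℂ) : (L * conj N).re * (N * conj R).im + (L * conj N).im * (N * conj R).re =
    normSq N * (L * conj R).im := by
  simp only [normSq_apply, mul_re, mul_im, conj_re, conj_im]; ring

theorem ALG_r2 (L N R : ℂ) : (L * conj R).im * (N * conj R).re - (L * conj R).re * (N * conj R).im =
    normSq R * (L * conj N).im := by
  simp only [normSq_apply, mul_re, mul_im, conj_re, conj_im]; ring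

theorem ALG_r3 (L N R : ℂ) : (L * conj R).im * (L * conj N).re - (L * conj R).re * (L * conj N).im =
    normSq L * (N * conj R).im := by
  simp only [normSq_apply, mul_re, mul_im, conj_re, conj_im]; ring

theorem ALG_r4 (L N R : ℂ) : (L * conj R).re * (N * conj R).re + (L * conj R).im * (N * conj R).im =
    normSq R * (L * conj N).re := by
  simp only [normSq_apply, mul_re, mul_im, conj_re, conj_im]; ring

theorem ALG_r5 (L N R : ℂ) : (L * conj N).re * (N * conj R).re - (L * conj N).im * (N * conj R).im =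
    normSq N * (L * conj R).re := by
  simp only [normSq_apply, mul_re, mul_im, conj_re, conj_im]; ring

/-- `r Im N` -/
theorem ALG_imN (N R : ℂ) : normSq R * N.im = (N * conj R).re * R.im + (N * conj R).im * R.re := by
  simp only [normSq_apply, mul_re, mul_im, conj_re, conj_im]; ring

theorem ALG_reN (N R : ℂ) : normSq R * N.re = (N * conj R).re * R.re - (N * conj R).im * R.im := by
  simp only [normSq_apply, mul_re, mul_im, conj_re, conj_im]; ring

/-! ## The three identities -/

theorem ALG_mk {L N R : ℂ} (h : Mk L N R) :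
    L.re ^ 2 - L.im ^ 2 + (N.re ^ 2 - N.im ^ 2) + (R.re ^ 2 - R.im ^ 2) =
      (L.re * N.re - L.im * N.im) * R.re - (L.re * N.im + L.im * N.re) * R.im ∧
    2 * L.re * L.im + 2 * N.re * N.im + 2 * R.re * R.im =
      (L.re * N.re - L.im * N.im) * R.im + (L.re * N.im + L.im * N.re) * R.re := by
  unfold Mk at h
  have h1 := congrArg Complex.re h
  have h2 := congrArg Complex.im h
  simp only [add_re, add_im, pow_two, mul_re, mul_im] at h1 h2
  constructor <;> [linear_combination h1; linear_combination h2]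

theorem ALG_N0 {L N R : ℂ} (h : Mk L N R) :
    (L * conj R).re * (normSq L + normSq R - normSq N) * (N * conj R).im +
      (N * conj R).re * (normSq N + normSq R - normSq L) * (L * conj R).im =
    -(normSq L * normSq N * normSq R * R.im) := by
  obtain ⟨h1, h2⟩ := ALG_mk h
  simp only [normSq_apply, mul_re, mul_im, conj_re, conj_im]
  linear_combination (-(R.re * R.re + R.im * R.im) * (-(L.re * N.im) - L.im * N.re)) * h1 +
    (-(R.re * R.re + R.im * R.im) * (L.re * N.re - L.im * N.im)) * h2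

theorem ALG_N1 {L N R : ℂ} (h : Mk L N R) :
    (L * conj R).re * (normSq L + normSq R - normSq N) * (L * conj N).im +
      (L * conj N).re * (normSq L + normSq N - normSq R) * (L * conj R).im =
    normSq L * normSq N * normSq R * L.im := by
  obtain ⟨h1, h2⟩ := ALG_mk h
  simp only [normSq_apply, mul_re, mul_im, conj_re, conj_im]
  linear_combination ((L.re * L.re + L.im * L.im) * (-(N.re * R.im) - N.im * R.re)) * h1 +
    ((L.re * L.re + L.im * L.im) * (N.re * R.re - N.im * R.im)) * h2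

theorem ALG_N2 {L N R : ℂ} (h : Mk L N R) :
    (L * conj N).re * (normSq L + normSq N - normSq R) * (N * conj R).im -
      (N * conj R).re * (normSq N + normSq R - normSq L) * (L * conj N).im =
    normSq L * normSq N * normSq R * N.im := by
  obtain ⟨h1, h2⟩ := ALG_mk h
  simp only [normSq_apply, mul_re, mul_im, conj_re, conj_im]
  linear_combination ((N.re * N.re + N.im * N.im) * (-(L.re * R.im) - L.im * R.re)) * h1 +
    ((N.re * N.re + N.im * N.im) * (L.re * R.re - L.im * R.im)) * h2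

/-! ## The comparison lemma -/

/-- With `c^2 + p^2 = rho`, `D + t^2 = 4 rho`: `(c t)^2 - D p^2 = rho (t^2 - 4 p^2)`. -/
theorem ALG_A {c p ρ D t : ℝ} (h1 : c ^ 2 + p ^ 2 = ρ) (h2 : D = 4 * ρ - t ^ 2) :
    (c * t) ^ 2 - D * p ^ 2 = ρ * (t ^ 2 - 4 * p ^ 2) := by
  subst h2; subst h1; ring

/-- `|t| < 2 p` implies `|c t| < T p`. -/
theorem ALG_A1 {c p ρ D t T : ℝ} (h1 : c ^ 2 + p ^ 2 = ρ) (h2 : D = 4 * ρ - t ^ 2) (hT : T ^ 2 = D) (hT0 : 0 ≤ T)
    (hρ : 0 < ρ) (ht : t < 2 * p) (ht' : -(2 * p) < t) : c * t < T * p ∧ -(T * p) < c * t := by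
  have hp : 0 < p := by linarith
  have h3 := ALG_A h1 h2
  have h4 : (c * t) ^ 2 < (T * p) ^ 2 := by
    have : t ^ 2 < 4 * p ^ 2 := by nlinarith
    have h5 : (T * p) ^ 2 = D * p ^ 2 := by rw [← hT]; ring
    nlinarith
  have h5 := abs_lt_of_sq_lt_sq h4 (by positivity)
  exact ⟨(abs_lt.1 h5).2, (abs_lt.1 h5).1⟩

/-- closed version. -/
theorem ALG_A1c {c p ρ D t T : ℝ} (h1 : c ^ 2 + p ^ 2 = ρ) (h2 : D = 4 * ρ - t ^ 2) (hT : T ^ 2 = D) (hT0 : 0 ≤ T)
    (ht : t ≤ 2 * p) (ht' : -(2 * p) ≤ t) : c * t ≤ T * p ∧ -(T * p) ≤ c * t := by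
  have hp : 0 ≤ p := by linarith
  have hρ : 0 ≤ ρ := by rw [← h1]; positivity
  have h3 := ALG_A h1 h2
  have h4 : (c * t) ^ 2 ≤ (T * p) ^ 2 := by
    have : t ^ 2 ≤ 4 * p ^ 2 := by nlinarith
    have h5 : (T * p) ^ 2 = D * p ^ 2 := by rw [← hT]; ring
    nlinarith
  have h5 := abs_le_of_sq_le_sq h4 (by positivity)
  exact ⟨(abs_le.1 h5).2, (abs_le.1 h5).1⟩

/-- `2 p < t`, `0 < c` implies `T p < c t` (`p` of any sign, `-2|p| < t` automatically). -/
theorem ALG_A2 {c p ρ D t T : ℝ} (h1 : c ^ 2 + p ^ 2 = ρ) (h2 : D = 4 * ρ - t ^ 2) (hT : T ^ 2 = D) (hT0 : 0 ≤ T)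
    (hc : 0 < c) (ht : 2 * p < t) : T * p < c * t := by
  have hρ : 0 < ρ := by rw [← h1]; positivity
  have h3 := ALG_A h1 h2
  have h5 : (T * p) ^ 2 = D * p ^ 2 := by rw [← hT]; ring
  by_cases hp : 0 ≤ p
  · have ht0 : 0 < t := by linarith
    have h4 : (T * p) ^ 2 < (c * t) ^ 2 := by
      have : 4 * p ^ 2 < t ^ 2 := by nlinarith
      nlinarith
    exact lt_of_pow_lt_pow_left₀ 2 (by positivity) h4
  · push Not at hp
    by_cases ht0 : 0 ≤ t
    · rcases hT0.eq_or_lt with hT1 | hT1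
      · rw [← hT1] at hT
        rw [← hT1, zero_mul]
        rcases ht0.eq_or_lt with ht1 | ht1
        · exfalso
          rw [← ht1] at h2
          have : D = 0 := by rw [← hT]; ring
          nlinarith
        · positivity
      · have : T * p < 0 := mul_neg_of_pos_of_neg hT1 hp
        have : 0 ≤ c * t := by positivity
        linarith
    · push Not at ht0
      have h4 : (-(c * t)) ^ 2 < (-(T * p)) ^ 2 := by
        have : t ^ 2 < 4 * p ^ 2 := by nlinarith
        have e1 : (-(c * t)) ^ 2 = (c * t) ^ 2 := by ring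
        have e2 : (-(T * p)) ^ 2 = (T * p) ^ 2 := by ring
        rw [e1, e2, h5]
        nlinarith
      have := lt_of_pow_lt_pow_left₀ 2 (by nlinarith [mul_nonneg hT0 (le_of_lt (neg_pos.2 hp))]) h4
      linarith

/-- `t ≤ 2 p`, `0 ≤ c` implies `c t ≤ T p`. -/
theorem ALG_A3 {c p ρ D t T : ℝ} (h1 : c ^ 2 + p ^ 2 = ρ) (h2 : D = 4 * ρ - t ^ 2) (hT : T ^ 2 = D) (hT0 : 0 ≤ T)
    (hc : 0 ≤ c) (ht : t ≤ 2 * p) : c * t ≤ T * p := by
  have hρ : 0 ≤ ρ := by rw [← h1]; positivity
  have h3 := ALG_A h1 h2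
  have h5 : (T * p) ^ 2 = D * p ^ 2 := by rw [← hT]; ring
  by_cases hp : 0 ≤ p
  · by_cases ht0 : 0 ≤ t
    · have h4 : (c * t) ^ 2 ≤ (T * p) ^ 2 := by
        have : t ^ 2 ≤ 4 * p ^ 2 := by nlinarith
        nlinarith
      exact le_of_sq_le_sq h4 (by positivity)
    · push Not at ht0
      have : c * t ≤ 0 := mul_nonpos_of_nonneg_of_nonpos hc ht0.le
      have : 0 ≤ T * p := by positivity
      linarith
  · push Not at hp
    have ht0 : t < 0 := by linarith
    have h4 : (-(T * p)) ^ 2 ≤ (-(c * t)) ^ 2 := by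
      have : 4 * p ^ 2 ≤ t ^ 2 := by nlinarith
      have e1 : (-(c * t)) ^ 2 = (c * t) ^ 2 := by ring
      have e2 : (-(T * p)) ^ 2 = (T * p) ^ 2 := by ring
      rw [e1, e2, h5]
      nlinarith
    have := le_of_sq_le_sq h4 (by nlinarith [mul_nonneg hc (le_of_lt (neg_pos.2 ht0))])
    linarith

/-! ## Consequences of `Adm` -/

theorem ALG_pgam {L R : ℂ} (h1 : 0 < L.re) (h2 : 0 < L.im) (h3 : 0 < R.re) (h4 : R.im < 0) : 0 < (L * conj R).im := by
  simp only [mul_im, conj_re, conj_im]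
  nlinarith [mul_pos h2 h3, mul_pos h1 (neg_pos.2 h4)]

theorem Adm.pos {L N R : ℂ} (h : Adm L N R) : 0 < normSq L ∧ 0 < normSq N ∧ 0 < normSq R := by
  refine ⟨?_, ?_, ?_⟩
  · rw [normSq_pos]; rintro rfl; exact lt_irrefl _ h.reL
  · have := (norm_nonneg _).trans_lt h.lo
    rw [normSq_pos]; exact norm_pos_iff.1 this
  · rw [normSq_pos]; rintro rfl; exact lt_irrefl _ h.reR

/-- the data of an admissible triple: `T = 4 S`. -/
theorem Adm.data {L N R : ℂ} (h : Adm L N R) : 0 < (L * conj R).im ∧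
    (normSq L + normSq R - normSq N < 2 * (L * conj R).im) ∧ (-(2 * (L * conj R).im) < normSq L + normSq R - normSq N) ∧
    ∃ T : ℝ, 0 < T ∧ T ^ 2 = 4 * (normSq L * normSq R) - (normSq L + normSq R - normSq N) ^ 2 ∧
      T ^ 2 = 4 * (normSq N * normSq R) - (normSq N + normSq R - normSq L) ^ 2 ∧
      T ^ 2 = 4 * (normSq L * normSq N) - (normSq L + normSq N - normSq R) ^ 2 := by
  have hp := ALG_pgam h.reL h.imL h.reR h.imR
  have h1 := ALG_slt.1 h.lo
  have h2 := ALG_gta.1 h.hi
  refine ⟨hp, h1, h2, ?_⟩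
  have h3 := ALG_pyth L R
  have hD : 0 < 4 * (normSq L * normSq R) - (normSq L + normSq R - normSq N) ^ 2 := by
    rw [← h3]
    nlinarith [sq_nonneg (L * conj R).re]
  refine ⟨Real.sqrt (4 * (normSq L * normSq R) - (normSq L + normSq R - normSq N) ^ 2), Real.sqrt_pos.2 hD,
    Real.sq_sqrt hD.le, ?_, ?_⟩
  · rw [Real.sq_sqrt hD.le]; ring
  · rw [Real.sq_sqrt hD.le]; ring

theorem ALG_pbet {N R : ℂ} (h1 : 0 < N.im) (h2 : 0 < R.re) (h3 : R.im < 0) (h4 : 0 ≤ (N * conj R).re) :
    0 < (N * conj R).im := by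
  have h5 := ALG_imN N R
  have hr : 0 < normSq R := by rw [normSq_pos]; rintro rfl; exact lt_irrefl _ h2
  have h6 : 0 < normSq R * N.im := by positivity
  have h7 : (N * conj R).re * R.im ≤ 0 := mul_nonpos_of_nonneg_of_nonpos h4 h3.le
  have h8 : 0 < (N * conj R).im * R.re := by linarith
  exact (pos_iff_pos_of_mul_pos h8).2 h2

/-- LEMMA 1. -/
theorem ALG_child {L N R : ℂ} (hM : Mk L N R) (h : Adm L N R) (hg : GoL L N R) : Adm N (N * R - L) R := by
  obtain ⟨hl, hn, hr⟩ := h.pos
  obtain ⟨hp, ht1, ht2, T, hT, hT1, hT2, hT3⟩ := h.data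
  have hb := ALG_pbet hg.im h.reR h.imR hg.re.le
  have hN := ALG_N0 hM
  -- |L| < |N + iR|
  have key : ‖L‖ < ‖N + I * R‖ := by
    rw [ALG_gta]
    by_contra hcon
    push Not at hcon
    have a1 := ALG_A1 (ALG_pyth L R) rfl hT1 hT.le (by positivity) ht1 ht2
    -- (c t)^2 ≥ T^2 p^2 with t ≤ -2p
    have a2 : (N * conj R).re * (normSq N + normSq R - normSq L) ≤ -(T * (N * conj R).im) := by
      have e := ALG_A (ALG_pyth N R) (rfl : 4 * (normSq N * normSq R) - (normSq N + normSq R - normSq L) ^ 2 = _)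
      have e2 : (T * (N * conj R).im) ^ 2 ≤ (-((N * conj R).re * (normSq N + normSq R - normSq L))) ^ 2 := by
        have e3 : 4 * (N * conj R).im ^ 2 ≤ (normSq N + normSq R - normSq L) ^ 2 := by nlinarith
        have e4 : (T * (N * conj R).im) ^ 2 = T ^ 2 * (N * conj R).im ^ 2 := by ring
        rw [e4, hT2, neg_sq]
        have e5 : 0 < normSq N * normSq R := by positivity
        nlinarith
      have e6 := le_of_sq_le_sq e2 (by
        rw [neg_nonneg]
        exact mul_nonpos_of_nonneg_of_nonpos hg.re.le (by linarith))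
      linarith
    have a3 : (L * conj R).re * (normSq L + normSq R - normSq N) * (N * conj R).im <
        T * (L * conj R).im * (N * conj R).im := mul_lt_mul_of_pos_right a1.1 hb
    have a4 : (N * conj R).re * (normSq N + normSq R - normSq L) * (L * conj R).im ≤
        -(T * (N * conj R).im) * (L * conj R).im := mul_le_mul_of_nonneg_right a2 hp.le
    have a5 : 0 < -(normSq L * normSq N * normSq R * R.im) := by
      have : 0 < normSq L * normSq N * normSq R * (-R.im) := by have := h.imR; have h9 : 0 < -R.im := by linarith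
                                                                positivity
      linarith
    linarith
  have hre : 0 < N.re := by
    have h5 := ALG_reN N R
    have h6 : 0 < (N * conj R).re * R.re := mul_pos hg.re h.reR
    have h7 : (N * conj R).im * R.im < 0 := mul_neg_of_pos_of_neg hb h.imR
    have h8 : 0 < normSq R * N.re := by linarith
    exact (pos_iff_pos_of_mul_pos h8).1 hr
  -- |N'||L| = |N - iR||N + iR|
  have hprod : ‖L‖ * ‖N * R - L‖ = ‖N - I * R‖ * ‖N + I * R‖ := by
    rw [← norm_mul, ← norm_mul]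
    congr 1
    unfold Mk at hM
    have : (N - I * R) * (N + I * R) = N ^ 2 + R ^ 2 := by ring_nf; rw [I_sq]; ring
    rw [this]; linear_combination -hM
  have hL : 0 < ‖L‖ := (norm_nonneg _).trans_lt hg.lt
  refine ⟨hre, hg.im, h.reR, h.imR, hg.re.le, ?_, ?_⟩
  · have hpos : 0 < ‖N + I * R‖ := hL.trans key
    by_contra hcon
    push Not at hcon
    have hx : ‖L‖ * ‖N * R - L‖ ≤ ‖L‖ * ‖N - I * R‖ := mul_le_mul_of_nonneg_left hcon hL.le
    rw [hprod] at hx
    rcases (norm_nonneg (N - I * R)).eq_or_lt with h0 | h0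
    · -- N = iR: then N' = 0 and N - iR = 0: but Re (N conj R) > 0
      have h1 : N = I * R := by
        have := norm_eq_zero.1 h0.symm
        linear_combination this
      have h2 := hg.re
      rw [h1] at h2
      simp only [mul_re, mul_im, I_re, I_im, conj_re, conj_im] at h2
      nlinarith
    · nlinarith
  · by_contra hcon
    push Not at hcon
    have hx : ‖L‖ * ‖N + I * R‖ ≤ ‖L‖ * ‖N * R - L‖ := mul_le_mul_of_nonneg_left hcon hL.le
    rw [hprod] at hx
    have hpos : 0 < ‖N + I * R‖ := hL.trans key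
    have := hg.lt
    nlinarith

/-! ## Mirror -/

theorem ALG_mirMk {L N R : ℂ} (h : Mk L N R) : Mk (conj R) (conj N) (conj L) := by
  unfold Mk at h ⊢
  have := congrArg conj h
  simp only [map_add, map_pow, map_mul] at this
  linear_combination this

theorem ALG_nmir (X Y : ℂ) : ‖conj X - I * conj Y‖ = ‖Y - I * X‖ := by
  have : conj X - I * conj Y = conj (I * (Y - I * X)) := by
    simp only [map_mul, map_sub, conj_I]; ring_nf; rw [I_sq]; ring
  rw [this, Complex.norm_conj, norm_mul, norm_I, one_mul]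

theorem ALG_nmir' (X Y : ℂ) : ‖conj X + I * conj Y‖ = ‖Y + I * X‖ := by
  have : conj X + I * conj Y = conj (-I * (Y + I * X)) := by
    simp only [map_mul, map_add, map_neg, conj_I]; ring_nf; rw [I_sq]; ring
  rw [this, Complex.norm_conj, norm_mul, norm_neg, norm_I, one_mul]

theorem ALG_remir (X Y : ℂ) : (conj X * conj (conj Y)).re = (Y * conj X).re := by
  simp only [mul_re, conj_re, conj_im]; ring

theorem ALG_mirAdm {L N R : ℂ} (h : Adm L N R) : Adm (conj R) (conj N) (conj L) := by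
  refine ⟨by simpa using h.reR, by simpa using h.imR, by simpa using h.reL, by simpa using h.imL, ?_, ?_, ?_⟩
  · rw [ALG_remir]; exact h.gam
  · rw [ALG_nmir, Complex.norm_conj]; exact h.lo
  · rw [ALG_nmir', Complex.norm_conj]; exact h.hi

theorem ALG_mirGoR {L N R : ℂ} (h : GoR L N R) : GoL (conj R) (conj N) (conj L) := by
  refine ⟨by simpa using h.im, ?_, ?_⟩
  · rw [ALG_remir]; exact h.re
  · rw [ALG_nmir, Complex.norm_conj]; exact h.lt

theorem ALG_mirGoL {L N R : ℂ} (h : GoL L N R) : GoR (conj R) (conj N) (conj L) := by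
  refine ⟨by simpa using h.im, ?_, ?_⟩
  · rw [ALG_remir]; exact h.re
  · rw [ALG_nmir, Complex.norm_conj]; exact h.lt

theorem ALG_mirTop {L N R : ℂ} (h : Top L N R) : Top (conj R) (conj N) (conj L) := by
  refine ⟨?_, ?_, ?_, ?_, ?_⟩
  · rw [ALG_remir]; exact h.reLN
  · rw [ALG_remir]; exact h.reNR
  · rw [ALG_nmir, Complex.norm_conj]; exact h.thR
  · rw [ALG_nmir, Complex.norm_conj]; exact h.thL
  · rw [ALG_nmir, ALG_nmir, Complex.norm_conj, Complex.norm_conj]; exact h.ne.symm

theorem ALG_childR {L N R : ℂ} (hM : Mk L N R) (h : Adm L N R) (hg : GoR L N R) : Adm L (L * N - R) N := by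
  have h1 := ALG_child (ALG_mirMk hM) (ALG_mirAdm h) (ALG_mirGoR hg)
  have h2 := ALG_mirAdm h1
  simp only [conj_conj, map_sub, map_mul] at h2
  rw [mul_comm N L] at h2
  exact h2

/-! ## The rule -/

theorem ALG_ruleL : ∀ L N R : ℂ, Mk L N R → Adm L N R → 0 < N.im → 0 < (N * conj R).re →
    ‖L‖ ≤ ‖N - I * R‖ → 0 < (L * conj N).re ∧ ‖R‖ < ‖L - I * N‖ := by
  intro L N R hM h him hre hlt
  obtain ⟨hl, hn, hr⟩ := h.pos
  obtain ⟨hp, ht1, ht2, T, hT, hT1, hT2, hT3⟩ := h.data
  have hb := ALG_pbet him h.reR h.imR hre.le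
  have hca : 0 < (L * conj N).re := by
    have h1 := ALG_r4 L N R
    have h2 : 0 ≤ (L * conj R).re * (N * conj R).re := mul_nonneg h.gam hre.le
    have h3 : 0 < (L * conj R).im * (N * conj R).im := mul_pos hp hb
    have h4 : 0 < normSq R * (L * conj N).re := by linarith
    exact (pos_iff_pos_of_mul_pos h4).1 hr
  refine ⟨hca, ?_⟩
  have hN2 := ALG_N2 hM
  have hN1 := ALG_N1 hM
  have htL := ALG_ges.1 hlt
  -- T p_β ≤ c_β t_L
  have hu : T * (N * conj R).im ≤ (N * conj R).re * (normSq N + normSq R - normSq L) := by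
    have e := ALG_A (ALG_pyth N R) (rfl : 4 * (normSq N * normSq R) - (normSq N + normSq R - normSq L) ^ 2 = _)
    have e2 : (T * (N * conj R).im) ^ 2 ≤ ((N * conj R).re * (normSq N + normSq R - normSq L)) ^ 2 := by
      have e3 : 4 * (N * conj R).im ^ 2 ≤ (normSq N + normSq R - normSq L) ^ 2 := by nlinarith
      have e4 : (T * (N * conj R).im) ^ 2 = T ^ 2 * (N * conj R).im ^ 2 := by ring
      rw [e4, hT2]
      have e5 : 0 < normSq N * normSq R := by positivity
      nlinarith
    exact le_of_sq_le_sq e2 (mul_nonneg hre.le (by linarith))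
  rw [ALG_gts]
  by_contra hcon
  push Not at hcon
  have hR := ALG_A3 (ALG_pyth L N) rfl hT3 hT.le hca.le hcon
  have hK : 0 < normSq L * normSq N * normSq R * N.im := by positivity
  have hK1 : 0 < normSq L * normSq N * normSq R * L.im := by have := h.imL; positivity
  rcases le_or_gt 0 (L * conj N).im with hpa | hpa
  · have a1 : (L * conj N).re * (normSq L + normSq N - normSq R) * (N * conj R).im ≤
        T * (L * conj N).im * (N * conj R).im := mul_le_mul_of_nonneg_right hR hb.le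
    have a2 : T * (N * conj R).im * (L * conj N).im ≤
        (N * conj R).re * (normSq N + normSq R - normSq L) * (L * conj N).im := mul_le_mul_of_nonneg_right hu hpa
    linarith
  · have a1 := (ALG_A1 (ALG_pyth L R) rfl hT1 hT.le (by positivity) ht1 ht2).2
    have a2 : (L * conj R).re * (normSq L + normSq R - normSq N) * (L * conj N).im ≤
        -(T * (L * conj R).im) * (L * conj N).im := mul_le_mul_of_nonpos_right a1.le hpa.le
    have a3 : (L * conj N).re * (normSq L + normSq N - normSq R) * (L * conj R).im ≤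
        T * (L * conj N).im * (L * conj R).im := mul_le_mul_of_nonneg_right hR hp.le
    linarith

/-- RULE, left. -/
theorem RULEL {L N R : ℂ} (hM : Mk L N R) (h : Adm L N R) (him : 0 < N.im) (hre : 0 < (N * conj R).re)
    (hlt : ‖L‖ ≤ ‖N - I * R‖) : Top L N R := by
  obtain ⟨h1, h2⟩ := ALG_ruleL L N R hM h him hre hlt
  exact ⟨hre, h1, hlt, h2.le, Or.inr h2⟩

/-- RULE, right. -/
theorem RULER {L N R : ℂ} (hM : Mk L N R) (h : Adm L N R) (him : N.im < 0) (hre : 0 < (L * conj N).re)
    (hlt : ‖R‖ ≤ ‖L - I * N‖) : Top L N R := by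
  have h1 := RULEL (ALG_mirMk hM) (ALG_mirAdm h) (by simpa using him) (by rw [ALG_remir]; exact hre)
    (by rw [ALG_nmir, Complex.norm_conj]; exact hlt)
  have h2 := ALG_mirTop h1
  simpa only [conj_conj] using h2

/-! ## Real middle entry -/

/-- the real algebra of a pivot `c > 2`: `x y u v > 0` (`L = x + iy`, `R = u - iv`). -/
theorem ALG_realpos {c x y u v : ℝ} (hc : 2 < c) (hx : 0 < x) (hy : 0 < y) (hu : 0 < u) (hv : 0 < v)
    (h1 : x ^ 2 - y ^ 2 + c ^ 2 + (u ^ 2 - v ^ 2) = c * (x * u + y * v)) (h2 : 2 * x * y - 2 * u * v = c * (y * u - x * v)) :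
    x * v + y * u < c * x ∧ x * v + y * u < c * u := by
  have hd : 0 < x * v + y * u := by positivity
  have hqw : 0 < y ^ 2 + v ^ 2 + c * y * v := by positivity
  have e1 : x ^ 2 + u ^ 2 - c * x * u = y ^ 2 + v ^ 2 + c * y * v - c ^ 2 := by linarith
  have e2 : (x ^ 2 + u ^ 2 - c * x * u) * (y ^ 2 + v ^ 2 + c * y * v) = (1 - c ^ 2 / 4) * (x * v + y * u) ^ 2 := by
    have e3 : (x ^ 2 + u ^ 2 - c * x * u) * (y ^ 2 + v ^ 2 + c * y * v) -
      (x * y - u * v - c / 2 * (y * u - x * v)) ^ 2 = (1 - c ^ 2 / 4) * (x * v + y * u) ^ 2 := by ring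
    have e4 : x * y - u * v - c / 2 * (y * u - x * v) = 0 := by linarith
    rw [e4] at e3; linarith
  have hc4 : 0 < c ^ 2 - 4 := by nlinarith
  have hqp : x ^ 2 + u ^ 2 - c * x * u < 0 := by
    have : (x ^ 2 + u ^ 2 - c * x * u) * (y ^ 2 + v ^ 2 + c * y * v) < 0 := by
      rw [e2]
      have : 0 < (c ^ 2 - 4) * (x * v + y * u) ^ 2 := by positivity
      linarith
    exact (neg_iff_pos_of_mul_neg this).2 hqw
  have hqw2 : y ^ 2 + v ^ 2 + c * y * v < c ^ 2 := by linarith
  have hd2 : (c ^ 2 - 4) * (x * v + y * u) ^ 2 = -4 * (x ^ 2 + u ^ 2 - c * x * u) * (y ^ 2 + v ^ 2 + c * y * v) := by linarith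
  constructor
  · have h3 : -4 * (x ^ 2 + u ^ 2 - c * x * u) ≤ (c ^ 2 - 4) * x ^ 2 := by nlinarith [sq_nonneg (2 * u - c * x)]
    have h4 : (c ^ 2 - 4) * (x * v + y * u) ^ 2 < (c ^ 2 - 4) * (c * x) ^ 2 := by
      rw [hd2]
      have h5 : -4 * (x ^ 2 + u ^ 2 - c * x * u) * (y ^ 2 + v ^ 2 + c * y * v) <
          -4 * (x ^ 2 + u ^ 2 - c * x * u) * c ^ 2 := by
        apply mul_lt_mul_of_pos_left hqw2; linarith
      have h6 : -4 * (x ^ 2 + u ^ 2 - c * x * u) * c ^ 2 ≤ (c ^ 2 - 4) * x ^ 2 * c ^ 2 :=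
        mul_le_mul_of_nonneg_right h3 (by positivity)
      calc _ < _ := h5
        _ ≤ _ := h6
        _ = _ := by ring
    have h5 := lt_of_mul_lt_mul_left h4 hc4.le
    exact lt_of_pow_lt_pow_left₀ 2 (by positivity) h5
  · have h3 : -4 * (x ^ 2 + u ^ 2 - c * x * u) ≤ (c ^ 2 - 4) * u ^ 2 := by nlinarith [sq_nonneg (2 * x - c * u)]
    have h4 : (c ^ 2 - 4) * (x * v + y * u) ^ 2 < (c ^ 2 - 4) * (c * u) ^ 2 := by
      rw [hd2]
      have h5 : -4 * (x ^ 2 + u ^ 2 - c * x * u) * (y ^ 2 + v ^ 2 + c * y * v) <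
          -4 * (x ^ 2 + u ^ 2 - c * x * u) * c ^ 2 := by
        apply mul_lt_mul_of_pos_left hqw2; linarith
      have h6 : -4 * (x ^ 2 + u ^ 2 - c * x * u) * c ^ 2 ≤ (c ^ 2 - 4) * u ^ 2 * c ^ 2 :=
        mul_le_mul_of_nonneg_right h3 (by positivity)
      calc _ < _ := h5
        _ ≤ _ := h6
        _ = _ := by ring
    have h5 := lt_of_mul_lt_mul_left h4 hc4.le
    exact lt_of_pow_lt_pow_left₀ 2 (by positivity) h5

theorem ALG_realneg {c x y u v : ℝ} (hc : c < -2) (hx : 0 < x) (hy : 0 < y) (hu : 0 < u) (hv : 0 < v)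
    (h1 : x ^ 2 - y ^ 2 + c ^ 2 + (u ^ 2 - v ^ 2) = c * (x * u + y * v)) (h2 : 2 * x * y - 2 * u * v = c * (y * u - x * v)) :
    False := by
  have hd : 0 < x * v + y * u := by positivity
  have hqp : 0 < x ^ 2 + u ^ 2 - c * x * u := by nlinarith [mul_pos hx hu]
  have hqw : 0 < y ^ 2 + v ^ 2 + c * y * v := by nlinarith
  have e2 : (x ^ 2 + u ^ 2 - c * x * u) * (y ^ 2 + v ^ 2 + c * y * v) = (1 - c ^ 2 / 4) * (x * v + y * u) ^ 2 := by
    have e3 : (x ^ 2 + u ^ 2 - c * x * u) * (y ^ 2 + v ^ 2 + c * y * v) -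
      (x * y - u * v - c / 2 * (y * u - x * v)) ^ 2 = (1 - c ^ 2 / 4) * (x * v + y * u) ^ 2 := by ring
    have e4 : x * y - u * v - c / 2 * (y * u - x * v) = 0 := by linarith
    rw [e4] at e3; linarith
  have h3 : 0 < (x ^ 2 + u ^ 2 - c * x * u) * (y ^ 2 + v ^ 2 + c * y * v) := mul_pos hqp hqw
  have h4 : 0 < (c ^ 2 - 4) * (x * v + y * u) ^ 2 := mul_pos (by nlinarith) (by positivity)
  linarith

/-- REAL: a real middle entry of modulus larger than two is a top. -/
theorem REALT : ∀ L N R : ℂ, Mk L N R → Adm L N R → N.im = 0 → 2 < |N.re| → Top L N R := by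
  intro L N R hM h him h2
  obtain ⟨m1, m2⟩ := ALG_mk hM
  rw [him] at m1 m2
  have hv : 0 < -R.im := by have := h.imR; linarith
  have k1 : L.re ^ 2 - L.im ^ 2 + N.re ^ 2 + (R.re ^ 2 - (-R.im) ^ 2) = N.re * (L.re * R.re + L.im * (-R.im)) := by
    linear_combination m1
  have k2 : 2 * L.re * L.im - 2 * R.re * (-R.im) = N.re * (L.im * R.re - L.re * (-R.im)) := by
    linear_combination m2
  rcases lt_or_ge 0 N.re with hpos | hneg
  · rw [abs_of_pos hpos] at h2
    obtain ⟨h3, h4⟩ := ALG_realpos h2 h.reL h.imL h.reR hv k1 k2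
    have hd : 0 < L.re * (-R.im) + L.im * R.re := by have := h.reL; have := h.imL; have := h.reR; positivity
    -- squares of the norms
    have hl : normSq L = L.re ^ 2 + L.im ^ 2 := by rw [normSq_apply]; ring
    have hn : normSq N = N.re ^ 2 := by rw [normSq_apply, him]; ring
    have hr : normSq R = R.re ^ 2 + R.im ^ 2 := by rw [normSq_apply]; ring
    have hid : (normSq L - normSq R) * (L.re * (-R.im) + L.im * R.re) = N.re ^ 2 * (L.im * R.re - L.re * (-R.im)) := by
      have a := ALG_N2 hM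
      rw [him] at a
      simp only [hl, hn, hr, mul_re, mul_im, conj_re, conj_im, him] at a
      have hn0 : N.re ^ 2 ≠ 0 := by positivity
      have a' : N.re ^ 2 * (((L.re ^ 2 + L.im ^ 2) - (R.re ^ 2 + R.im ^ 2)) * (L.re * (-R.im) + L.im * R.re) -
          N.re ^ 2 * (L.im * R.re - L.re * (-R.im))) = 0 := by linear_combination a
      have a'' := (mul_eq_zero.1 a').resolve_left hn0
      rw [hl, hr]; linarith
    refine ⟨?_, ?_, ?_, ?_, Or.inl ?_⟩
    · simp only [mul_re, conj_re, conj_im, him]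
      have := mul_pos hpos h.reR; linarith
    · simp only [mul_re, conj_re, conj_im, him]
      have := mul_pos h.reL hpos; linarith
    · rw [ALG_ges]
      have e : (N * conj R).im = N.re * (-R.im) := by simp only [mul_im, conj_re, conj_im, him]; ring
      rw [e]
      by_contra hcon
      push Not at hcon
      have g1 : (normSq N + normSq R - normSq L) * (L.re * (-R.im) + L.im * R.re) = 2 * (N.re * (-R.im)) * (N.re * L.re) := by
        rw [hn]; linear_combination -hid
      have g2 : 2 * (N.re * (-R.im)) * (L.re * (-R.im) + L.im * R.re) < 2 * (N.re * (-R.im)) * (N.re * L.re) :=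
        mul_lt_mul_of_pos_left h3 (by positivity)
      have g3 : (normSq N + normSq R - normSq L) * (L.re * (-R.im) + L.im * R.re) <
          2 * (N.re * (-R.im)) * (L.re * (-R.im) + L.im * R.re) := mul_lt_mul_of_pos_right hcon hd
      linarith
    · rw [ALG_ges]
      have e : (L * conj N).im = L.im * N.re := by simp only [mul_im, conj_re, conj_im, him]; ring
      rw [e]
      by_contra hcon
      push Not at hcon
      have g1 : (normSq L + normSq N - normSq R) * (L.re * (-R.im) + L.im * R.re) = 2 * (L.im * N.re) * (N.re * R.re) := by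
        rw [hn]; linear_combination hid
      have g2 : 2 * (L.im * N.re) * (L.re * (-R.im) + L.im * R.re) < 2 * (L.im * N.re) * (N.re * R.re) :=
        mul_lt_mul_of_pos_left h4 (by have := h.imL; positivity)
      have g3 : (normSq L + normSq N - normSq R) * (L.re * (-R.im) + L.im * R.re) <
          2 * (L.im * N.re) * (L.re * (-R.im) + L.im * R.re) := mul_lt_mul_of_pos_right hcon hd
      linarith
    · rw [ALG_gts]
      have e : (N * conj R).im = N.re * (-R.im) := by simp only [mul_im, conj_re, conj_im, him]; ring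
      rw [e]
      by_contra hcon
      push Not at hcon
      have g1 : (normSq N + normSq R - normSq L) * (L.re * (-R.im) + L.im * R.re) = 2 * (N.re * (-R.im)) * (N.re * L.re) := by
        rw [hn]; linear_combination -hid
      have g2 : 2 * (N.re * (-R.im)) * (L.re * (-R.im) + L.im * R.re) < 2 * (N.re * (-R.im)) * (N.re * L.re) :=
        mul_lt_mul_of_pos_left h3 (by positivity)
      have g3 : (normSq N + normSq R - normSq L) * (L.re * (-R.im) + L.im * R.re) ≤
          2 * (N.re * (-R.im)) * (L.re * (-R.im) + L.im * R.re) := mul_le_mul_of_nonneg_right hcon hd.le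
      linarith
  · exfalso
    rw [abs_of_nonpos hneg] at h2
    exact ALG_realneg (by linarith) h.reL h.imL h.reR hv k1 k2

/-! ## The chain -/

theorem Ch_Adm : ∀ (w : List Bool) (z : ℂ), Ch w z → Adm (Lf w z) (Nf w z) (Rf w z) := by
  intro w z h
  induction w with
  | nil => exact Adm_root h.1 h.2
  | cons b w ih =>
    obtain ⟨h1, h2⟩ := h
    cases b with
    | true => exact ALG_child (Mk_Tr w z) (ih h1) h2
    | false => exact ALG_childR (Mk_Tr w z) (ih h1) h2

end Pool.Agent.M4
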