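import Mathlib

/-!
# Project M4 (MP_1b8d20_an, S03975), block V, BASE: the invariant set (pure part)
-/

set_option autoImplicit false

namespace Pool.Agent.M4

open Complex

/-- the invariant set. -/
structure BInv (η : ℝ) (a : ℂ) : Prop where
  le : ‖a‖ ≤ 1 / 2 - η / 2
  p : 1 / 2 + η ≤ ‖1 + a‖
  m : 1 / 2 + η ≤ ‖1 - a‖

theorem BInv_zero {η : ℝ} (h1 : η ≤ 1 / 16) : BInv η 0 := by
  refine ⟨?_, ?_, ?_⟩
  · rw [norm_zero]; linarith
  · rw [add_zero, norm_one]; linarith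
  · rw [sub_zero, norm_one]; linarith

theorem BInv_neg {η : ℝ} {a : ℂ} (h : BInv η a) : BInv η (-a) :=
  ⟨by rw [norm_neg]; exact h.le, by rw [← sub_eq_add_neg]; exact h.m, by rw [sub_neg_eq_add]; exact h.p⟩

/-- `k + a` is outside the disc for `k ≠ 0`. -/
theorem BInv_far {η : ℝ} (h0 : 0 < η) (h1 : η ≤ 1 / 16) {a : ℂ} (h : BInv η a) {k : ℤ} (hk : k ≠ 0) :
    1 / 2 + η ≤ ‖(k : ℂ) + a‖ := by
  by_cases h2 : k = 1
  · subst h2; push_cast; exact h.p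
  by_cases h3 : k = -1
  · subst h3
    have : ((-1 : ℤ) : ℂ) + a = -(1 - a) := by push_cast; ring
    rw [this, norm_neg]; exact h.m
  have h4 : (2 : ℝ) ≤ ‖(k : ℂ)‖ := by
    rw [Complex.norm_intCast]
    have : (2 : ℤ) ≤ |k| := by
      rcases lt_or_gt_of_ne hk with h5 | h5
      · rw [abs_of_neg h5]; omega
      · rw [abs_of_pos h5]; omega
    exact_mod_cast this
  have h5 : ‖(k : ℂ)‖ ≤ ‖(k : ℂ) + a‖ + ‖a‖ := by
    have := norm_sub_le ((k : ℂ) + a) a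
    simpa using this
  have := h.le
  linarith

/-- the main one sided estimate. -/
theorem BInv_key {η : ℝ} (h0 : 0 < η) (h1 : η ≤ 1 / 16) {c a b : ℂ} (hc1 : ‖c‖ ≤ 1 / 4 + η / 8)
    (hc2 : 4 * η < c.im ^ 2) (hb : 1 / 2 + η ≤ ‖b‖) (hab : a * b = c) (ha : ‖a‖ ≤ 1 / 2)
    (hbk : ∃ k : ℤ, ‖b - k‖ ≤ 1 / 2) : 1 / 2 + η ≤ ‖1 + a‖ := by
  by_contra hcon
  push Not at hcon
  -- squares
  have ha2 : a.re ^ 2 + a.im ^ 2 ≤ 1 / 4 := by
    have : ‖a‖ ^ 2 ≤ (1 / 2) ^ 2 := pow_le_pow_left₀ (norm_nonneg _) ha 2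
    rw [← normSq_eq_norm_sq, normSq_apply] at this
    linarith
  have hcon2 : (1 + a.re) ^ 2 + a.im ^ 2 < (1 / 2 + η) ^ 2 := by
    have : ‖1 + a‖ ^ 2 < (1 / 2 + η) ^ 2 := pow_lt_pow_left₀ hcon (norm_nonneg _) two_ne_zero
    rw [← normSq_eq_norm_sq, normSq_apply] at this
    simp only [add_re, add_im, one_re, one_im] at this
    linarith
  have hapos : 1 / 2 - η < ‖a‖ := by
    have h2 : (1 : ℝ) ≤ ‖1 + a‖ + ‖a‖ := by
      have := norm_sub_le (1 + a) a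
      simpa using this
    linarith
  have hb' : ‖b‖ < 1 / 2 + 2 * η := by
    by_contra hb2
    push Not at hb2
    have h3 : ‖a‖ * ‖b‖ = ‖c‖ := by rw [← hab, norm_mul]
    have h4 : (1 / 2 - η) * (1 / 2 + 2 * η) < ‖a‖ * ‖b‖ := by
      have h5 : (1 / 2 - η) * (1 / 2 + 2 * η) < ‖a‖ * (1 / 2 + 2 * η) := mul_lt_mul_of_pos_right hapos (by linarith)
      have h6 : ‖a‖ * (1 / 2 + 2 * η) ≤ ‖a‖ * ‖b‖ := mul_le_mul_of_nonneg_left hb2 (norm_nonneg _)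
      linarith
    nlinarith
  have hb2 : b.re ^ 2 + b.im ^ 2 < (1 / 2 + 2 * η) ^ 2 := by
    have : ‖b‖ ^ 2 < (1 / 2 + 2 * η) ^ 2 := pow_lt_pow_left₀ hb' (norm_nonneg _) two_ne_zero
    rw [← normSq_eq_norm_sq, normSq_apply] at this
    linarith
  have hb3 : 1 / 4 ≤ b.re ^ 2 + b.im ^ 2 := by
    have : (1 / 2) ^ 2 ≤ ‖b‖ ^ 2 := pow_le_pow_left₀ (by norm_num) (by linarith) 2
    rw [← normSq_eq_norm_sq, normSq_apply] at this
    linarith
  obtain ⟨k, hk⟩ := hbk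
  have hk2 : (b.re - k) ^ 2 + b.im ^ 2 ≤ 1 / 4 := by
    have : ‖b - k‖ ^ 2 ≤ (1 / 2) ^ 2 := pow_le_pow_left₀ (norm_nonneg _) hk 2
    rw [← normSq_eq_norm_sq, normSq_apply] at this
    simp only [sub_re, sub_im, intCast_re, intCast_im, sub_zero] at this
    linarith
  -- Re b is at least one half in modulus
  have hre : 1 / 4 ≤ b.re ^ 2 := by
    have hkk : k ≠ 0 := by
      rintro rfl
      simp only [Int.cast_zero, sub_zero] at hk
      linarith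
    have hkr : (1 : ℝ) ≤ (k : ℝ) ^ 2 := by
      have : (1 : ℤ) ≤ k ^ 2 := by
        have := sq_pos_of_ne_zero hkk
        omega
      exact_mod_cast this
    -- 2 k Re b ≥ k^2
    have h5 : (k : ℝ) ^ 2 ≤ 2 * (k * b.re) := by nlinarith
    have h6 : ((k : ℝ) ^ 2) ^ 2 ≤ (2 * (k * b.re)) ^ 2 := pow_le_pow_left₀ (by positivity) h5 2
    have h7 : (k : ℝ) ^ 2 * (k : ℝ) ^ 2 ≤ (k : ℝ) ^ 2 * (4 * b.re ^ 2) := by nlinarith
    have h8 := le_of_mul_le_mul_left h7 (by linarith)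
    linarith
  have him : b.im ^ 2 ≤ 3 * η := by nlinarith
  have hapos2 : (1 / 2 - η) ^ 2 < a.re ^ 2 + a.im ^ 2 := by
    have : (1 / 2 - η) ^ 2 < ‖a‖ ^ 2 := pow_lt_pow_left₀ hapos (by linarith) two_ne_zero
    rw [← normSq_eq_norm_sq, normSq_apply] at this
    linarith
  have haim : a.im ^ 2 ≤ η := by
    have g1 : 1 / 2 - η < -a.re := by nlinarith
    have g2 : (1 / 2 - η) ^ 2 < (-a.re) ^ 2 := pow_lt_pow_left₀ g1 (by linarith) two_ne_zero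
    nlinarith
  have hare : a.re ^ 2 ≤ 1 / 4 := by nlinarith [sq_nonneg a.im]
  have hbre : b.re ^ 2 ≤ 2 / 5 := by nlinarith [sq_nonneg b.im]
  have e : c.im = a.re * b.im + a.im * b.re := by rw [← hab, mul_im]
  have h9 : (a.re * b.im) ^ 2 ≤ 3 / 4 * η := by
    rw [mul_pow]; nlinarith [sq_nonneg a.re, sq_nonneg b.im]
  have h10 : (a.im * b.re) ^ 2 ≤ 2 / 5 * η := by
    rw [mul_pow]; nlinarith [sq_nonneg a.im, sq_nonneg b.re]
  have h11 : c.im ^ 2 ≤ 2 * ((a.re * b.im) ^ 2 + (a.im * b.re) ^ 2) := by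
    rw [e]; nlinarith [sq_nonneg (a.re * b.im - a.im * b.re)]
  linarith

/-- the invariance. -/
theorem BInv_step {η : ℝ} (h0 : 0 < η) (h1 : η ≤ 1 / 16) {c a : ℂ} (hc1 : ‖c‖ ≤ 1 / 4 + η / 8)
    (hc2 : 4 * η < c.im ^ 2) (h : BInv η a) {k : ℤ} (hk : k ≠ 0) : BInv η (c / (k + a)) := by
  have hb := BInv_far h0 h1 h hk
  have hb0 : 0 < ‖(k : ℂ) + a‖ := by linarith
  have hb1 : (k : ℂ) + a ≠ 0 := norm_pos_iff.1 hb0
  have hle : ‖c / (k + a)‖ ≤ 1 / 2 - η / 2 := by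
    rw [norm_div, div_le_iff₀ hb0]
    have h2 : (1 / 2 - η / 2) * (1 / 2 + η) ≤ (1 / 2 - η / 2) * ‖(k : ℂ) + a‖ :=
      mul_le_mul_of_nonneg_left hb (by linarith)
    nlinarith
  have hk1 : ‖((k : ℂ) + a) - k‖ ≤ 1 / 2 := by
    have : ((k : ℂ) + a) - k = a := by ring
    rw [this]; have := h.le; linarith
  refine ⟨hle, ?_, ?_⟩
  · exact BInv_key h0 h1 hc1 hc2 hb (div_mul_cancel₀ _ hb1) (by linarith) ⟨k, hk1⟩
  · have h3 := BInv_key (c := c) (a := -(c / (k + a))) (b := -((k : ℂ) + a)) h0 h1 hc1 hc2 (by rw [norm_neg]; exact hb)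
      (by rw [neg_mul_neg]; exact div_mul_cancel₀ _ hb1) (by rw [norm_neg]; linarith)
      ⟨-k, by
        have : -((k : ℂ) + a) - ((-k : ℤ) : ℂ) = -a := by push_cast; ring
        rw [this, norm_neg]; have := h.le; linarith⟩
    rw [← sub_eq_add_neg] at h3
    exact h3

end Pool.Agent.M4
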