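import Pool.Agent.helper30.M4.BaseC
import Pool.Agent.helper95.M4.V1

/-!
# Project M4 (MP_1b8d20_an, S03975), block V, BASE: normal form of the words, and the bounds near `‖z‖ = 2`
-/

set_option autoImplicit false

namespace Pool.Agent.M4

open Complex Matrix Topology Filter

/-- translation matrix. -/
def BTm (k : ℤ) : Matrix (Fin 2) (Fin 2) ℂ := !![1, (k : ℂ); 0, 1]

/-- power of the letter `N`. -/
noncomputable def BD (n : ℕ) : Matrix (Fin 2) (Fin 2) ℂ := !![I ^ n, 0; 0, (I ^ n)⁻¹]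

/-- stabiliser matrix. -/
noncomputable def BS (u : ℂ) (m : ℤ) : Matrix (Fin 2) (Fin 2) ℂ := !![u, m / u; 0, 1 / u]

/-- reduced products `J T^k1 J T^k2 ... J`. -/
inductive BRed : (ℂ → Matrix (Fin 2) (Fin 2) ℂ) → Prop
  | base : BRed (fun z => lm z .J)
  | step (A : ℂ → Matrix (Fin 2) (Fin 2) ℂ) (k : ℤ) (hk : k ≠ 0) (h : BRed A) : BRed (fun z => lm z .J * (BTm k * A z))

/-- normal form. -/
def BNF (g : List Lt) : Prop := ∃ A : ℂ → Matrix (Fin 2) (Fin 2) ℂ, BRed A ∧ ∃ (n : ℕ) (m : ℤ) (v : ℂ) (m' : ℤ),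
  ‖v‖ = 1 ∧ ∀ z : ℂ, z ≠ 0 → ev z g = BD n * (BTm m * (A z * BS v m'))

theorem B_mul2 (M N : Matrix (Fin 2) (Fin 2) ℂ) (i j : Fin 2) : (M * N) i j = M i 0 * N 0 j + M i 1 * N 1 j := by
  rw [Matrix.mul_apply, Fin.sum_univ_two]

theorem BD_zero : BD 0 = 1 := by
  unfold BD; simp [Matrix.one_fin_two]

theorem BTm_zero : BTm 0 = 1 := by
  unfold BTm; simp [Matrix.one_fin_two]

theorem B_In (n : ℕ) : (I : ℂ) ^ n ≠ 0 := pow_ne_zero _ I_ne_zero

theorem B_Isq (n : ℕ) : ((I : ℂ) ^ n) ^ 2 = (-1) ^ n := by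
  rw [← pow_mul, mul_comm n 2, pow_mul, I_sq]

/-- `T D = D T^(±1)`. -/
theorem B_T_D (n : ℕ) (k : ℤ) : ∃ k' : ℤ, (k' = k ∨ k' = -k) ∧ BTm k * BD n = BD n * BTm k' := by
  rcases Nat.even_or_odd n with h | h
  · refine ⟨k, Or.inl rfl, ?_⟩
    have e := B_Isq n
    rw [h.neg_one_pow] at e
    unfold BTm BD
    have hn := B_In n
    ext i j
    fin_cases i <;> fin_cases j <;> simp [Matrix.mul_apply, Fin.sum_univ_two]
    have : ((I : ℂ) ^ n)⁻¹ = I ^ n := by field_simp; rw [e]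
    rw [this]; ring
  · refine ⟨-k, Or.inr rfl, ?_⟩
    have e := B_Isq n
    rw [h.neg_one_pow] at e
    unfold BTm BD
    have hn := B_In n
    ext i j
    fin_cases i <;> fin_cases j <;> simp [Matrix.mul_apply, Fin.sum_univ_two]
    have : ((I : ℂ) ^ n)⁻¹ = -I ^ n := by field_simp; rw [e]; norm_num
    rw [this]; ring

theorem B_TT (k l : ℤ) : BTm k * BTm l = BTm (k + l) := by
  unfold BTm
  ext i j
  fin_cases i <;> fin_cases j <;> simp [Matrix.mul_apply, Fin.sum_univ_two]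
  ring

theorem B_DD (n k : ℕ) : BD n * BD k = BD (n + k) := by
  unfold BD
  ext i j
  fin_cases i <;> fin_cases j <;> simp [Matrix.mul_apply, Fin.sum_univ_two, pow_add, mul_comm]

theorem B_lmT (z : ℂ) : lm z .T = BTm 1 := by
  unfold BTm lm; simp

theorem B_lmTi (z : ℂ) : lm z .Ti = BTm (-1) := by
  unfold BTm lm; simp

theorem B_lmN (z : ℂ) : lm z .N = BD 1 := by
  unfold BD lm; simp

theorem B_J_D (z : ℂ) (n : ℕ) : lm z .J * BD n = BD (3 * n) * lm z .J := by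
  have h : ((I : ℂ) ^ (3 * n)) = (I ^ n)⁻¹ := by
    have hn := B_In n
    field_simp
    rw [← pow_add]
    have : 3 * n + n = 4 * n := by ring
    rw [this, pow_mul, I_pow_four, one_pow]
  unfold BD lm
  rw [h]
  ext i j
  fin_cases i <;> fin_cases j <;> simp [Matrix.mul_apply, Fin.sum_univ_two]
  · ring
  · ring

theorem B_JJ {z : ℂ} (hz : z ≠ 0) : lm z .J * lm z .J = BD 2 := by
  unfold BD lm
  ext i j
  fin_cases i <;> fin_cases j <;> simp [Matrix.mul_apply, Fin.sum_univ_two, hz]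

/-- `D S` is again a stabiliser matrix. -/
theorem B_D_S (n : ℕ) {u : ℂ} (hu : ‖u‖ = 1) (m : ℤ) : ∃ (u' : ℂ) (m' : ℤ), ‖u'‖ = 1 ∧ BD n * BS u m = BS u' m' := by
  have hu0 : u ≠ 0 := by rintro rfl; simp at hu
  have hn := B_In n
  have hI : ‖(I : ℂ) ^ n‖ = 1 := by rw [norm_pow, norm_I, one_pow]
  rcases Nat.even_or_odd n with h | h
  · have e := B_Isq n
    rw [h.neg_one_pow] at e
    refine ⟨I ^ n * u, m, by rw [norm_mul, hI, hu, one_mul], ?_⟩
    unfold BD BS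
    have e2 : ((I : ℂ) ^ n)⁻¹ = I ^ n := by field_simp; rw [e]
    ext i j
    fin_cases i <;> fin_cases j <;> simp [Matrix.mul_apply, Fin.sum_univ_two]
    · rw [div_eq_mul_inv, div_eq_mul_inv, mul_inv, e2]; ring
    · ring
  · have e := B_Isq n
    rw [h.neg_one_pow] at e
    refine ⟨I ^ n * u, -m, by rw [norm_mul, hI, hu, one_mul], ?_⟩
    unfold BD BS
    have e2 : ((I : ℂ) ^ n)⁻¹ = -I ^ n := by field_simp; rw [e]; norm_num
    ext i j
    fin_cases i <;> fin_cases j <;> simp [Matrix.mul_apply, Fin.sum_univ_two]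
    · rw [div_eq_mul_inv, div_eq_mul_inv, mul_inv, e2]; ring
    · ring

theorem B_T_S (k : ℤ) {u : ℂ} (hu : ‖u‖ = 1) (m : ℤ) : BTm k * BS u m = BS u (m + k) := by
  have hu0 : u ≠ 0 := by rintro rfl; simp at hu
  unfold BTm BS
  ext i j
  fin_cases i <;> fin_cases j <;> simp [Matrix.mul_apply, Fin.sum_univ_two]
  ring

/-- every word is a stabiliser word or has a normal form. -/
theorem B_word (g : List Lt) : Stb g ∨ BNF g := by
  induction g with
  | nil =>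
    left
    refine ⟨1, 0, norm_one, fun z _ => ?_⟩
    rw [ev_nil]; simp [Matrix.one_fin_two]
  | cons a g ih =>
    rcases ih with ⟨u, m, hu, h⟩ | ⟨A, hA, n, m, v, m', hv, h⟩
    · cases a with
      | T =>
        left
        refine ⟨u, m + 1, hu, fun z hz => ?_⟩
        rw [ev_cons, h z hz, B_lmT]
        exact B_T_S 1 hu m
      | Ti =>
        left
        refine ⟨u, m + -1, hu, fun z hz => ?_⟩
        rw [ev_cons, h z hz, B_lmTi]
        exact B_T_S (-1) hu m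
      | N =>
        left
        obtain ⟨u', m'', hu', h'⟩ := B_D_S 1 hu m
        refine ⟨u', m'', hu', fun z hz => ?_⟩
        rw [ev_cons, h z hz, B_lmN]
        exact h'
      | J =>
        right
        refine ⟨_, BRed.base, 0, 0, u, m, hu, fun z hz => ?_⟩
        rw [ev_cons, h z hz, BD_zero, BTm_zero, one_mul, one_mul]
        rfl
    · cases a with
      | T =>
        right
        obtain ⟨k', -, hk'⟩ := B_T_D n 1
        refine ⟨A, hA, n, k' + m, v, m', hv, fun z hz => ?_⟩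
        rw [ev_cons, h z hz, B_lmT, ← mul_assoc, hk', mul_assoc, ← mul_assoc (BTm k'), B_TT]
      | Ti =>
        right
        obtain ⟨k', -, hk'⟩ := B_T_D n (-1)
        refine ⟨A, hA, n, k' + m, v, m', hv, fun z hz => ?_⟩
        rw [ev_cons, h z hz, B_lmTi, ← mul_assoc, hk', mul_assoc, ← mul_assoc (BTm k'), B_TT]
      | N =>
        right
        refine ⟨A, hA, 1 + n, m, v, m', hv, fun z hz => ?_⟩
        rw [ev_cons, h z hz, B_lmN, ← mul_assoc, B_DD]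
      | J =>
        by_cases hm : m = 0
        · subst hm
          cases hA with
          | base =>
            -- J D J S = D' J J S = D'' S
            left
            obtain ⟨u', m'', hu', h'⟩ := B_D_S (3 * n + 2) hv m'
            refine ⟨u', m'', hu', fun z hz => ?_⟩
            rw [ev_cons, h z hz, BTm_zero, one_mul, ← mul_assoc, B_J_D, mul_assoc, ← mul_assoc (lm z .J), B_JJ hz,
              ← mul_assoc, B_DD]
            exact h'
          | step A k hk hA' =>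
            -- J D J T^k A S = D'' T^k A S
            right
            refine ⟨A, hA', 3 * n + 2, k, v, m', hv, fun z hz => ?_⟩
            rw [ev_cons, h z hz, BTm_zero, one_mul, ← mul_assoc, B_J_D]
            have e : BD (3 * n) * lm z .J * (lm z .J * (BTm k * A z) * BS v m') =
                (BD (3 * n) * (lm z .J * lm z .J)) * (BTm k * (A z * BS v m')) := by
              simp only [mul_assoc]
            rw [e, B_JJ hz, B_DD]
        · right
          refine ⟨_, BRed.step A m hm hA, 3 * n, 0, v, m', hv, fun z hz => ?_⟩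
          rw [ev_cons, h z hz, BTm_zero, one_mul, ← mul_assoc, B_J_D]
          simp only [mul_assoc]

/-- the bounds for the reduced products. -/
theorem B_red {η : ℝ} (h0 : 0 < η) (h1 : η ≤ 1 / 16) {z : ℂ} (hz : z ≠ 0) (hc1 : ‖-(z ^ 2)⁻¹‖ ≤ 1 / 4 + η / 8)
    (hc2 : 4 * η < (-(z ^ 2)⁻¹).im ^ 2) (hz1 : 1 ≤ ‖z‖ * (1 / 2 + η)) {A : ℂ → Matrix (Fin 2) (Fin 2) ℂ} (hA : BRed A) :
    1 ≤ ‖A z 1 0‖ ∧ BInv η (A z 0 0 / A z 1 0) := by
  induction hA with
  | base =>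
    constructor
    · show 1 ≤ ‖z‖
      have : ‖z‖ * (1 / 2 + η) ≤ ‖z‖ * 1 := mul_le_mul_of_nonneg_left (by linarith) (norm_nonneg _)
      linarith
    · have : (lm z Lt.J) 0 0 / (lm z Lt.J) 1 0 = 0 := by simp [lm]
      rw [this]; exact BInv_zero h1
  | step A k hk _ ih =>
    obtain ⟨i1, i2⟩ := ih
    have hne : A z 1 0 ≠ 0 := by intro h; rw [h, norm_zero] at i1; linarith
    have hfar := BInv_far h0 h1 i2 hk
    have hne2 : (k : ℂ) + A z 0 0 / A z 1 0 ≠ 0 := by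
      intro h; rw [h, norm_zero] at hfar; linarith
    have e10 : (lm z Lt.J * (BTm k * A z)) 1 0 = z * (A z 1 0 * ((k : ℂ) + A z 0 0 / A z 1 0)) := by
      simp only [B_mul2]
      simp [lm, BTm]
      left
      field_simp; ring
    have e00 : (lm z Lt.J * (BTm k * A z)) 0 0 = -z⁻¹ * A z 1 0 := by
      simp only [B_mul2]
      simp [lm, BTm]
    constructor
    · show 1 ≤ ‖(lm z Lt.J * (BTm k * A z)) 1 0‖
      rw [e10, norm_mul, norm_mul]
      calc (1 : ℝ) = 1 * 1 := by ring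
        _ ≤ (‖z‖ * (1 / 2 + η)) * ‖A z 1 0‖ := mul_le_mul hz1 i1 (by norm_num) (by linarith)
        _ ≤ (‖z‖ * ‖(k : ℂ) + A z 0 0 / A z 1 0‖) * ‖A z 1 0‖ := by
          apply mul_le_mul_of_nonneg_right _ (norm_nonneg _)
          exact mul_le_mul_of_nonneg_left hfar (norm_nonneg _)
        _ = _ := by ring
    · have e : (lm z Lt.J * (BTm k * A z)) 0 0 / (lm z Lt.J * (BTm k * A z)) 1 0 =
          -(z ^ 2)⁻¹ / ((k : ℂ) + A z 0 0 / A z 1 0) := by
        rw [e10, e00]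
        field_simp
      show BInv η ((lm z Lt.J * (BTm k * A z)) 0 0 / (lm z Lt.J * (BTm k * A z)) 1 0)
      rw [e]
      exact BInv_step h0 h1 hc1 hc2 i2 hk

/-- BASE, core: pointwise form. -/
theorem B_core {η : ℝ} (h0 : 0 < η) (h1 : η ≤ 1 / 16) {z : ℂ} (hz : z ≠ 0) (hc1 : ‖-(z ^ 2)⁻¹‖ ≤ 1 / 4 + η / 8)
    (hc2 : 4 * η < (-(z ^ 2)⁻¹).im ^ 2) (hz1 : 1 ≤ ‖z‖ * (1 / 2 + η)) {g : List Lt} (hg : ¬ Stb g) :
    (∃ m : ℤ, ‖aa g z - m‖ ≤ 1 / 2 - η / 2) ∧ 1 ≤ ‖cc g z‖ := by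
  obtain ⟨A, hA, n, m, v, m', hv, h⟩ := (B_word g).resolve_left hg
  obtain ⟨i1, i2⟩ := B_red h0 h1 hz hc1 hc2 hz1 hA
  have hne : A z 1 0 ≠ 0 := by intro h; rw [h, norm_zero] at i1; linarith
  have hv0 : v ≠ 0 := by rintro rfl; simp at hv
  have hn := B_In n
  have hI : ‖(I : ℂ) ^ n‖ = 1 := by rw [norm_pow, norm_I, one_pow]
  have e10 : ev z g 1 0 = (I ^ n)⁻¹ * A z 1 0 * v := by
    rw [h z hz]
    simp only [B_mul2]
    simp [BD, BTm, BS]
    ring
  have e00 : ev z g 0 0 = I ^ n * (A z 0 0 + m * A z 1 0) * v := by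
    rw [h z hz]
    simp only [B_mul2]
    simp [BD, BTm, BS]
    ring
  constructor
  · have e : aa g z = (-1) ^ n * ((m : ℂ) + A z 0 0 / A z 1 0) := by
      rw [aa, e10, e00, ← B_Isq n]
      field_simp
      ring
    rcases Nat.even_or_odd n with hp | hp
    · refine ⟨m, ?_⟩
      rw [e, hp.neg_one_pow]
      have : 1 * ((m : ℂ) + A z 0 0 / A z 1 0) - m = A z 0 0 / A z 1 0 := by ring
      rw [this]; exact i2.le
    · refine ⟨-m, ?_⟩
      rw [e, hp.neg_one_pow]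
      have : -1 * ((m : ℂ) + A z 0 0 / A z 1 0) - ((-m : ℤ) : ℂ) = -(A z 0 0 / A z 1 0) := by push_cast; ring
      rw [this, norm_neg]; exact i2.le
  · rw [cc, e10, norm_mul, norm_mul, norm_inv, hI, hv, inv_one, one_mul, mul_one]
    exact i1

/-- BASE, core: near a point of the circle `‖z‖ = 2` off the axes. -/
theorem B_near {z₀ : ℂ} (hq : z₀ ∈ Qd) (h2 : ‖z₀‖ = 2) : ∃ η : ℝ, 0 < η ∧ η ≤ 1 / 16 ∧ ∀ᶠ z in 𝓝 z₀, ∀ g : List Lt, ¬ Stb g →
    (∃ m : ℤ, ‖aa g z - m‖ ≤ 1 / 2 - η / 2) ∧ 1 ≤ ‖cc g z‖ := by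
  have hz0 : z₀ ≠ 0 := by rintro rfl; simp at h2
  have hc : ‖-(z₀ ^ 2)⁻¹‖ = 1 / 4 := by rw [norm_neg, norm_inv, norm_pow, h2]; norm_num
  have him : (-(z₀ ^ 2)⁻¹).im ≠ 0 := by
    obtain ⟨hx, hy⟩ := hq
    rw [neg_im, inv_im]
    have h3 : (z₀ ^ 2).im = 2 * z₀.re * z₀.im := by rw [pow_two, mul_im]; ring
    have h4 : 0 < (z₀ ^ 2).im := by rw [h3]; positivity
    have h5 : 0 < normSq (z₀ ^ 2) := normSq_pos.2 (pow_ne_zero 2 hz0)
    have h6 : 0 < (z₀ ^ 2).im / normSq (z₀ ^ 2) := div_pos h4 h5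
    rw [neg_div, neg_neg]; exact h6.ne'
  set η : ℝ := min (1 / 16) ((-(z₀ ^ 2)⁻¹).im ^ 2 / 8) with hη
  have hpos : 0 < (-(z₀ ^ 2)⁻¹).im ^ 2 := by positivity
  have h0 : 0 < η := lt_min (by norm_num) (by positivity)
  have h1 : η ≤ 1 / 16 := min_le_left _ _
  have h3 : η ≤ (-(z₀ ^ 2)⁻¹).im ^ 2 / 8 := min_le_right _ _
  refine ⟨η, h0, h1, ?_⟩
  have hcont : ContinuousAt (fun z : ℂ => -(z ^ 2)⁻¹) z₀ := by
    refine ContinuousAt.neg (ContinuousAt.inv₀ (by fun_prop) (pow_ne_zero 2 hz0))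
  have k0 : ∀ᶠ z : ℂ in 𝓝 z₀, z ≠ 0 := isOpen_ne.mem_nhds hz0
  have k1 : ∀ᶠ z : ℂ in 𝓝 z₀, ‖-(z ^ 2)⁻¹‖ < 1 / 4 + η / 8 :=
    hcont.norm.eventually (gt_mem_nhds (by show ‖-(z₀ ^ 2)⁻¹‖ < _; rw [hc]; linarith))
  have k2 : ∀ᶠ z : ℂ in 𝓝 z₀, 4 * η < (-(z ^ 2)⁻¹).im ^ 2 := by
    have : ContinuousAt (fun z : ℂ => (-(z ^ 2)⁻¹).im ^ 2) z₀ :=
      (Complex.continuous_im.continuousAt.comp hcont).pow 2
    exact this.eventually (lt_mem_nhds (by linarith))
  have k3 : ∀ᶠ z : ℂ in 𝓝 z₀, 1 < ‖z‖ * (1 / 2 + η) := by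
    have : ContinuousAt (fun z : ℂ => ‖z‖ * (1 / 2 + η)) z₀ := by fun_prop
    exact this.eventually (lt_mem_nhds (by show 1 < ‖z₀‖ * (1 / 2 + η); rw [h2]; linarith))
  filter_upwards [k0, k1, k2, k3] with z a0 a1 a2 a3 g hg
  exact B_core h0 h1 a0 a1.le a2 a3.le hg

/-- `PP` holds near the circle. -/
theorem B_PP {z₀ : ℂ} (hq : z₀ ∈ Qd) (h2 : ‖z₀‖ = 2) : ∀ᶠ z in 𝓝 z₀, PP z := by
  obtain ⟨η, -, -, h⟩ := B_near hq h2
  filter_upwards [h] with z hz
  exact ⟨1, one_pos, fun g hg => (hz g hg).2⟩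

end Pool.Agent.M4
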