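import Pool.Agent.helper30.M4.Opn
import Pool.Agent.helper8.M4.Spec

/-!
# Project M4 (MP_1b8d20_an, S03975), block IVa: closedness in bounded depth
-/

set_option autoImplicit false

namespace Pool.Agent.M4

open Complex ComplexConjugate Topology Filter

/-! ## The margin -/

/-- margin inequalities (closed form of `d ≤ θ_L`, `d ≤ θ_R`). -/
structure Mar (d : ℝ) (L N R : ℂ) : Prop where
  b : Real.sin d * (‖N‖ * ‖R‖) ≤ (N * conj R).re
  a : Real.sin d * (‖L‖ * ‖N‖) ≤ (L * conj N).re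
  tl : 2 * ((N * conj R).im * Real.cos d + (N * conj R).re * Real.sin d) ≤ normSq N + normSq R - normSq L
  tr : 2 * ((L * conj N).im * Real.cos d + (L * conj N).re * Real.sin d) ≤ normSq L + normSq N - normSq R

theorem CLS_polar {Y Z : ℂ} (hZ : Z ≠ 0) : (Y * conj Z).re = ‖Y‖ * ‖Z‖ * Real.cos (arg (Y / Z)) ∧
    (Y * conj Z).im = ‖Y‖ * ‖Z‖ * Real.sin (arg (Y / Z)) := by
  have hz : ‖Z‖ ≠ 0 := norm_ne_zero_iff.2 hZ
  have e : Y * conj Z = (Y / Z) * ((‖Z‖ ^ 2 : ℝ) : ℂ) := by
    rw [← normSq_eq_norm_sq, normSq_eq_conj_mul_self]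
    field_simp
  have h1 := Complex.norm_mul_cos_arg (Y / Z)
  have h2 := Complex.norm_mul_sin_arg (Y / Z)
  rw [norm_div] at h1 h2
  rw [e, re_mul_ofReal, im_mul_ofReal, ← h1, ← h2]
  constructor <;> field_simp

theorem CLS_arg {Y Z : ℂ} (h : 0 < (Y * conj Z).re) : |arg (Y / Z)| < Real.pi / 2 := by
  have hZ : Z ≠ 0 := by rintro rfl; simp at h
  apply Complex.abs_arg_lt_pi_div_two_iff.2
  left
  rw [div_re]
  have hns : 0 < normSq Z := normSq_pos.2 hZ
  have e : Y.re * Z.re / normSq Z + Y.im * Z.im / normSq Z = (Y * conj Z).re / normSq Z := by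
    simp only [mul_re, conj_re, conj_im]; ring
  rw [e]; exact div_pos h hns

theorem CLS_mar1 {X Y Z : ℂ} {d : ℝ} (hYZ : 0 < (Y * conj Z).re) (h1 : ‖X‖ < ‖Y‖ + ‖Z‖) (h2 : ‖Y‖ < ‖X‖ + ‖Z‖)
    (h3 : ‖Z‖ < ‖X‖ + ‖Y‖) (hd : 0 < d) (h : d ≤ M4J.thL X Y Z) (hb : -(Real.pi / 2 - d) ≤ arg (Y / Z)) :
    Real.sin d * (‖Y‖ * ‖Z‖) ≤ (Y * conj Z).re ∧
      2 * ((Y * conj Z).im * Real.cos d + (Y * conj Z).re * Real.sin d) ≤ normSq Y + normSq Z - normSq X := by
  have hY : Y ≠ 0 := by rintro rfl; simp at hYZ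
  have hZ : Z ≠ 0 := by rintro rfl; simp at hYZ
  have hy : 0 < ‖Y‖ := norm_pos_iff.2 hY
  have hz : 0 < ‖Z‖ := norm_pos_iff.2 hZ
  obtain ⟨p1, p2⟩ := CLS_polar (Y := Y) hZ
  unfold M4J.thL M4J.aA at h
  have hpi := Real.pi_gt_three
  have ha0 := Real.arccos_nonneg ((‖Y‖ ^ 2 + ‖Z‖ ^ 2 - ‖X‖ ^ 2) / (2 * ‖Y‖ * ‖Z‖))
  set β := arg (Y / Z) with hβ
  have hcos : Real.sin d ≤ Real.cos β := by
    rw [← Real.cos_pi_div_two_sub, ← Real.cos_abs β]
    apply Real.cos_le_cos_of_nonneg_of_le_pi (abs_nonneg _) (by linarith)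
    rw [abs_le]; constructor <;> linarith
  refine ⟨?_, ?_⟩
  · rw [p1, mul_comm]
    exact mul_le_mul_of_nonneg_left hcos (by positivity)
  · have hx1 : -1 ≤ (‖Y‖ ^ 2 + ‖Z‖ ^ 2 - ‖X‖ ^ 2) / (2 * ‖Y‖ * ‖Z‖) := by
      rw [le_div_iff₀ (by positivity)]
      nlinarith [norm_nonneg X]
    have hx2 : (‖Y‖ ^ 2 + ‖Z‖ ^ 2 - ‖X‖ ^ 2) / (2 * ‖Y‖ * ‖Z‖) ≤ 1 := by
      rw [div_le_one (by positivity)]
      nlinarith [norm_nonneg X, abs_sub_lt_iff.2 ⟨(by linarith : ‖Y‖ - ‖Z‖ < ‖X‖), (by linarith : ‖Z‖ - ‖Y‖ < ‖X‖)⟩,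
        sq_lt_sq' (by linarith : -‖X‖ < ‖Y‖ - ‖Z‖) (by linarith : ‖Y‖ - ‖Z‖ < ‖X‖)]
    have h4 : Real.cos (Real.pi / 2 - d - β) ≤ (‖Y‖ ^ 2 + ‖Z‖ ^ 2 - ‖X‖ ^ 2) / (2 * ‖Y‖ * ‖Z‖) := by
      rw [← Real.cos_arccos hx1 hx2]
      apply Real.cos_le_cos_of_nonneg_of_le_pi ha0 (by linarith)
      linarith
    have h5 : Real.cos (Real.pi / 2 - d - β) = Real.sin d * Real.cos β + Real.cos d * Real.sin β := by
      have : Real.pi / 2 - d - β = Real.pi / 2 - (d + β) := by ring
      rw [this, Real.cos_pi_div_two_sub, Real.sin_add]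
    rw [h5, le_div_iff₀ (by positivity)] at h4
    rw [p1, p2, normSq_eq_norm_sq, normSq_eq_norm_sq, normSq_eq_norm_sq]
    linarith

theorem CLS_mar {L N R : ℂ} {d : ℝ} (hA : Adm L N R) (hT : Top L N R) (hd : 0 < d)
    (h1 : d ≤ M4J.thL L N R) (h2 : d ≤ M4J.thR L N R) : Mar d L N R := by
  obtain ⟨t1, t2, t3⟩ := OPN_tri hA
  have hL : L ≠ 0 := by rintro rfl; exact lt_irrefl _ hA.reL
  have hR : R ≠ 0 := by rintro rfl; exact lt_irrefl _ hA.reR
  have hN : N ≠ 0 := by intro h; have := (norm_nonneg _).trans_lt hA.lo; rw [h, norm_zero] at this; exact lt_irrefl _ this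
  have b1 := abs_lt.1 (CLS_arg hT.reNR)
  have a1 := abs_lt.1 (CLS_arg hT.reLN)
  have hmul : arg (L / R) = arg (L / N) + arg (N / R) := by
    rw [← Complex.arg_mul (div_ne_zero hL hN) (div_ne_zero hN hR) ⟨by linarith, by linarith⟩]
    congr 1; field_simp
  have hg : 0 ≤ arg (L / R) := by
    rw [Complex.arg_nonneg_iff, div_im]
    have hns : 0 < normSq R := normSq_pos.2 hR
    have e : L.im * R.re / normSq R - L.re * R.im / normSq R = (L * conj R).im / normSq R := by
      simp only [mul_im, conj_re, conj_im]; ring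
    rw [e]
    exact (div_pos (ALG_pgam hA.reL hA.imL hA.reR hA.imR) hns).le
  have k1 : arg (N / R) ≤ Real.pi / 2 - d := by
    unfold M4J.thL M4J.aA at h1
    have := Real.arccos_nonneg ((‖N‖ ^ 2 + ‖R‖ ^ 2 - ‖L‖ ^ 2) / (2 * ‖N‖ * ‖R‖))
    linarith
  have k2 : arg (L / N) ≤ Real.pi / 2 - d := by
    unfold M4J.thR M4J.aA at h2
    have := Real.arccos_nonneg ((‖N‖ ^ 2 + ‖L‖ ^ 2 - ‖R‖ ^ 2) / (2 * ‖N‖ * ‖L‖))
    linarith
  have m1 := CLS_mar1 hT.reNR t1 (by linarith) (by linarith) hd h1 (by linarith)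
  rw [M4J.thR_eq] at h2
  have m2 := CLS_mar1 hT.reLN t3 (by linarith) (by linarith) hd h2 (by linarith)
  exact ⟨m1.1, m2.1, m1.2, m2.2⟩

/-- strictness from the margin. -/
theorem CLS_strict {X Y : ℂ} {d : ℝ} (hd : 0 < d) (hd1 : d ≤ 1) (hX : X ≠ 0) (hY : Y ≠ 0)
    (h : Real.sin d * (‖X‖ * ‖Y‖) ≤ (X * conj Y).re) :
    0 < (X * conj Y).re ∧ (X * conj Y).im < (X * conj Y).im * Real.cos d + (X * conj Y).re * Real.sin d := by
  have hx : 0 < ‖X‖ := norm_pos_iff.2 hX
  have hy : 0 < ‖Y‖ := norm_pos_iff.2 hY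
  have hpi := Real.pi_gt_three
  have hs : 0 < Real.sin d := Real.sin_pos_of_pos_of_lt_pi hd (by linarith)
  have hc : 0 < Real.cos d := Real.cos_pos_of_mem_Ioo ⟨by linarith, by linarith⟩
  have hsc := Real.sin_sq_add_cos_sq d
  have hρ : 0 < ‖X‖ * ‖Y‖ := by positivity
  have hre : 0 < (X * conj Y).re := lt_of_lt_of_le (by positivity) h
  refine ⟨hre, ?_⟩
  have hc1 : Real.cos d < 1 := by nlinarith
  rcases le_or_gt (X * conj Y).im 0 with hp | hp
  · have h1 : (X * conj Y).im * (1 - Real.cos d) ≤ 0 := mul_nonpos_of_nonpos_of_nonneg hp (by linarith)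
    have h2 : 0 < (X * conj Y).re * Real.sin d := by positivity
    linarith
  · have hq : (X * conj Y).re ^ 2 + (X * conj Y).im ^ 2 = (‖X‖ * ‖Y‖) ^ 2 := by
      rw [ALG_pyth, normSq_eq_norm_sq, normSq_eq_norm_sq]; ring
    have h1 : (X * conj Y).im ^ 2 ≤ (Real.cos d * (‖X‖ * ‖Y‖)) ^ 2 := by
      have : (Real.sin d * (‖X‖ * ‖Y‖)) ^ 2 ≤ (X * conj Y).re ^ 2 := pow_le_pow_left₀ (by positivity) h 2
      have e : (Real.cos d * (‖X‖ * ‖Y‖)) ^ 2 = (‖X‖ * ‖Y‖) ^ 2 - (Real.sin d * (‖X‖ * ‖Y‖)) ^ 2 := by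
        have : Real.cos d ^ 2 = 1 - Real.sin d ^ 2 := by linarith
        rw [mul_pow, this]; ring
      rw [e]; linarith
    have h2 : (X * conj Y).im ≤ Real.cos d * (‖X‖ * ‖Y‖) := le_of_sq_le_sq h1 (by positivity)
    have h3 : (X * conj Y).im * (1 - Real.cos d) ≤ Real.cos d * (‖X‖ * ‖Y‖) * (1 - Real.cos d) :=
      mul_le_mul_of_nonneg_right h2 (by linarith)
    have h4 : Real.cos d * (‖X‖ * ‖Y‖) * (1 - Real.cos d) < (‖X‖ * ‖Y‖) * Real.sin d ^ 2 := by
      have : Real.sin d ^ 2 = (1 + Real.cos d) * (1 - Real.cos d) := by linarith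
      rw [this]
      have : 0 < (‖X‖ * ‖Y‖) * (1 - Real.cos d) := mul_pos hρ (by linarith)
      linarith
    have h5 : (‖X‖ * ‖Y‖) * Real.sin d ^ 2 ≤ (X * conj Y).re * Real.sin d := by
      have := mul_le_mul_of_nonneg_right h hs.le
      linarith
    linarith

/-- an admissible triple with the margin is a top. -/
theorem CLS_top {L N R : ℂ} {d : ℝ} (hd : 0 < d) (hd1 : d ≤ 1) (hA : Adm L N R) (hm : Mar d L N R) : Top L N R := by
  have hL : L ≠ 0 := by rintro rfl; exact lt_irrefl _ hA.reL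
  have hR : R ≠ 0 := by rintro rfl; exact lt_irrefl _ hA.reR
  have hN : N ≠ 0 := by intro h; have := (norm_nonneg _).trans_lt hA.lo; rw [h, norm_zero] at this; exact lt_irrefl _ this
  obtain ⟨h1, h2⟩ := CLS_strict hd hd1 hN hR hm.b
  obtain ⟨h3, h4⟩ := CLS_strict hd hd1 hL hN hm.a
  have k1 := hm.tl
  have k2 := hm.tr
  have s1 : ‖L‖ < ‖N - I * R‖ := by rw [ALG_gts]; linarith
  have s2 : ‖R‖ < ‖L - I * N‖ := by rw [ALG_gts]; linarith
  exact ⟨h1, h3, s1.le, s2.le, Or.inl s1⟩

/-! ## Runs of sequences of triples -/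

/-- pointwise conditions. -/
def PMA (T : ℕ → Tri) : Prop := ∀ n, Mk (T n).L (T n).N (T n).R ∧ Adm (T n).L (T n).N (T n).R

/-- all triples of the sequence run through the same moves to a top with margin `d`. -/
inductive Run (d : ℝ) : (ℕ → Tri) → Prop
  | top (T : ℕ → Tri) (h : PMA T) (ht : ∀ n, Top (T n).L (T n).N (T n).R) (hm : ∀ n, Mar d (T n).L (T n).N (T n).R) : Run d T
  | goL (T : ℕ → Tri) (h : PMA T) (hg : ∀ n, GoL (T n).L (T n).N (T n).R) (hr : Run d (fun n => dropL (T n))) : Run d T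
  | goR (T : ℕ → Tri) (h : PMA T) (hg : ∀ n, GoR (T n).L (T n).N (T n).R) (hr : Run d (fun n => dropR (T n))) : Run d T

theorem Run.pma {d : ℝ} {T : ℕ → Tri} (h : Run d T) : PMA T := by cases h <;> assumption

/-- componentwise limit. -/
structure Lim (T : ℕ → Tri) (t : Tri) : Prop where
  L : Tendsto (fun n => (T n).L) atTop (𝓝 t.L)
  N : Tendsto (fun n => (T n).N) atTop (𝓝 t.N)
  R : Tendsto (fun n => (T n).R) atTop (𝓝 t.R)

theorem Lim.dropL {T : ℕ → Tri} {t : Tri} (h : Lim T t) : Lim (fun n => M4.dropL (T n)) (M4.dropL t) :=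
  ⟨h.N, (h.N.mul h.R).sub h.L, h.R⟩

theorem Lim.dropR {T : ℕ → Tri} {t : Tri} (h : Lim T t) : Lim (fun n => M4.dropR (T n)) (M4.dropR t) :=
  ⟨h.L, (h.L.mul h.N).sub h.R, h.N⟩

/-- mirror image. -/
def mir (t : Tri) : Tri := ⟨conj t.R, conj t.N, conj t.L⟩

theorem mir_dropL (t : Tri) : M4.dropL (mir t) = mir (M4.dropR t) := by
  simp only [M4.dropL, M4.dropR, mir, map_sub, map_mul]
  congr 1; ring

theorem mir_dropR (t : Tri) : M4.dropR (mir t) = mir (M4.dropL t) := by
  simp only [M4.dropL, M4.dropR, mir, map_sub, map_mul]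
  congr 1; ring

theorem Lim.mir {T : ℕ → Tri} {t : Tri} (h : Lim T t) : Lim (fun n => M4.mir (T n)) (M4.mir t) :=
  ⟨(Complex.continuous_conj.tendsto _).comp h.R, (Complex.continuous_conj.tendsto _).comp h.N, (Complex.continuous_conj.tendsto _).comp h.L⟩

theorem PMA.mir {T : ℕ → Tri} (h : PMA T) : PMA (fun n => M4.mir (T n)) :=
  fun n => ⟨ALG_mirMk (h n).1, ALG_mirAdm (h n).2⟩

theorem CLS_immir (X Y : ℂ) : (conj X * conj (conj Y)).im = (Y * conj X).im := by
  simp only [mul_im, conj_re, conj_im]; ring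

theorem Mar.mir {d : ℝ} {L N R : ℂ} (h : Mar d L N R) : Mar d (conj R) (conj N) (conj L) := by
  refine ⟨?_, ?_, ?_, ?_⟩
  · rw [ALG_remir, Complex.norm_conj, Complex.norm_conj, mul_comm ‖N‖]; exact h.a
  · rw [ALG_remir, Complex.norm_conj, Complex.norm_conj, mul_comm ‖R‖]; exact h.b
  · rw [ALG_remir, CLS_immir, normSq_conj, normSq_conj, normSq_conj]; have := h.tr; linarith
  · rw [ALG_remir, CLS_immir, normSq_conj, normSq_conj, normSq_conj]; have := h.tl; linarith

theorem Run.mir {d : ℝ} {T : ℕ → Tri} (h : Run d T) : Run d (fun n => M4.mir (T n)) := by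
  induction h with
  | top T h ht hm => exact Run.top _ h.mir (fun n => ALG_mirTop (ht n)) (fun n => (hm n).mir)
  | goL T h hg _ ih =>
    refine Run.goR _ h.mir (fun n => ALG_mirGoL (hg n)) ?_
    have e : (fun n => M4.dropR (M4.mir (T n))) = fun n => M4.mir (M4.dropL (T n)) := by
      funext n; exact mir_dropR _
    rw [e]; exact ih
  | goR T h hg _ ih =>
    refine Run.goL _ h.mir (fun n => ALG_mirGoR (hg n)) ?_
    have e : (fun n => M4.dropL (M4.mir (T n))) = fun n => M4.mir (M4.dropR (T n)) := by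
      funext n; exact mir_dropL _
    rw [e]; exact ih

/-! ## Limits of the basic quantities -/

theorem Lim.reLR {T : ℕ → Tri} {t : Tri} (h : Lim T t) :
    Tendsto (fun n => ((T n).L * conj (T n).R).re) atTop (𝓝 (t.L * conj t.R).re) :=
  (Complex.continuous_re.tendsto _).comp (h.L.mul ((Complex.continuous_conj.tendsto _).comp h.R))

theorem Lim.reNR {T : ℕ → Tri} {t : Tri} (h : Lim T t) :
    Tendsto (fun n => ((T n).N * conj (T n).R).re) atTop (𝓝 (t.N * conj t.R).re) :=
  (Complex.continuous_re.tendsto _).comp (h.N.mul ((Complex.continuous_conj.tendsto _).comp h.R))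

theorem Lim.imNR {T : ℕ → Tri} {t : Tri} (h : Lim T t) :
    Tendsto (fun n => ((T n).N * conj (T n).R).im) atTop (𝓝 (t.N * conj t.R).im) :=
  (Complex.continuous_im.tendsto _).comp (h.N.mul ((Complex.continuous_conj.tendsto _).comp h.R))

theorem Lim.reLN {T : ℕ → Tri} {t : Tri} (h : Lim T t) :
    Tendsto (fun n => ((T n).L * conj (T n).N).re) atTop (𝓝 (t.L * conj t.N).re) :=
  (Complex.continuous_re.tendsto _).comp (h.L.mul ((Complex.continuous_conj.tendsto _).comp h.N))

theorem Lim.imLN {T : ℕ → Tri} {t : Tri} (h : Lim T t) :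
    Tendsto (fun n => ((T n).L * conj (T n).N).im) atTop (𝓝 (t.L * conj t.N).im) :=
  (Complex.continuous_im.tendsto _).comp (h.L.mul ((Complex.continuous_conj.tendsto _).comp h.N))

theorem Lim.imN {T : ℕ → Tri} {t : Tri} (h : Lim T t) : Tendsto (fun n => (T n).N.im) atTop (𝓝 t.N.im) :=
  (Complex.continuous_im.tendsto _).comp h.N

theorem Lim.mkf {T : ℕ → Tri} {t : Tri} (h : Lim T t) (hT : PMA T) : Mk t.L t.N t.R := by
  unfold Mk
  have h1 : Tendsto (fun n => (T n).L ^ 2 + (T n).N ^ 2 + (T n).R ^ 2) atTop (𝓝 (t.L ^ 2 + t.N ^ 2 + t.R ^ 2)) :=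
    ((h.L.pow 2).add (h.N.pow 2)).add (h.R.pow 2)
  have h2 : Tendsto (fun n => (T n).L * (T n).N * (T n).R) atTop (𝓝 (t.L * t.N * t.R)) := (h.L.mul h.N).mul h.R
  have h3 : (fun n => (T n).L ^ 2 + (T n).N ^ 2 + (T n).R ^ 2) = fun n => (T n).L * (T n).N * (T n).R := by
    funext n; exact (hT n).1
  rw [h3] at h1
  exact tendsto_nhds_unique h1 h2

/-- closed form of `Adm.lo`. -/
theorem Lim.lo {T : ℕ → Tri} {t : Tri} (h : Lim T t) (hT : PMA T) : ‖t.L - I * t.R‖ ≤ ‖t.N‖ :=
  le_of_tendsto_of_tendsto' ((h.L.sub (h.R.const_mul I)).norm) h.N.norm (fun n => (hT n).2.lo.le)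

theorem Lim.hi {T : ℕ → Tri} {t : Tri} (h : Lim T t) (hT : PMA T) : ‖t.N‖ ≤ ‖t.L + I * t.R‖ :=
  le_of_tendsto_of_tendsto' h.N.norm ((h.L.add (h.R.const_mul I)).norm) (fun n => (hT n).2.hi.le)

theorem Lim.reL {T : ℕ → Tri} {t : Tri} (h : Lim T t) (hT : PMA T) : 0 ≤ t.L.re :=
  ge_of_tendsto' ((Complex.continuous_re.tendsto _).comp h.L) (fun n => (hT n).2.reL.le)

theorem Lim.imL {T : ℕ → Tri} {t : Tri} (h : Lim T t) (hT : PMA T) : 0 ≤ t.L.im :=
  ge_of_tendsto' ((Complex.continuous_im.tendsto _).comp h.L) (fun n => (hT n).2.imL.le)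

theorem Lim.reR {T : ℕ → Tri} {t : Tri} (h : Lim T t) (hT : PMA T) : 0 ≤ t.R.re :=
  ge_of_tendsto' ((Complex.continuous_re.tendsto _).comp h.R) (fun n => (hT n).2.reR.le)

theorem Lim.imR {T : ℕ → Tri} {t : Tri} (h : Lim T t) (hT : PMA T) : t.R.im ≤ 0 :=
  le_of_tendsto' ((Complex.continuous_im.tendsto _).comp h.R) (fun n => (hT n).2.imR.le)

theorem Lim.mar {d : ℝ} {T : ℕ → Tri} {t : Tri} (h : Lim T t) (hm : ∀ n, Mar d (T n).L (T n).N (T n).R) :
    Mar d t.L t.N t.R := by
  have nL : Tendsto (fun n => normSq (T n).L) atTop (𝓝 (normSq t.L)) := (Complex.continuous_normSq.tendsto _).comp h.L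
  have nN : Tendsto (fun n => normSq (T n).N) atTop (𝓝 (normSq t.N)) := (Complex.continuous_normSq.tendsto _).comp h.N
  have nR : Tendsto (fun n => normSq (T n).R) atTop (𝓝 (normSq t.R)) := (Complex.continuous_normSq.tendsto _).comp h.R
  refine ⟨?_, ?_, ?_, ?_⟩
  · exact le_of_tendsto_of_tendsto' ((h.N.norm.mul h.R.norm).const_mul _) h.reNR (fun n => (hm n).b)
  · exact le_of_tendsto_of_tendsto' ((h.L.norm.mul h.N.norm).const_mul _) h.reLN (fun n => (hm n).a)
  · exact le_of_tendsto_of_tendsto' (((h.imNR.mul_const _).add (h.reNR.mul_const _)).const_mul 2) ((nN.add nR).sub nL)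
      (fun n => (hm n).tl)
  · exact le_of_tendsto_of_tendsto' (((h.imLN.mul_const _).add (h.reLN.mul_const _)).const_mul 2) ((nL.add nN).sub nR)
      (fun n => (hm n).tr)

/-! ## Zero middle entry -/

/-- pointwise estimates when `‖L - iR‖ < ‖N‖`. -/
theorem CLS_near {L N R : ℂ} (h : ‖L - I * R‖ < ‖N‖) :
    |(L * conj N).re - (N * conj R).im| ≤ normSq N ∧ |(L * conj N).im - (N * conj R).re| ≤ normSq N := by
  have e : (L - I * R) * conj N = ⟨(L * conj N).re - (N * conj R).im, (L * conj N).im - (N * conj R).re⟩ := by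
    apply Complex.ext
    · simp only [mul_re, mul_im, sub_re, sub_im, I_re, I_im, conj_re, conj_im]; ring
    · simp only [mul_re, mul_im, sub_re, sub_im, I_re, I_im, conj_re, conj_im]; ring
  have h1 : ‖(L - I * R) * conj N‖ ≤ normSq N := by
    rw [norm_mul, Complex.norm_conj, normSq_eq_norm_sq, pow_two]
    exact mul_le_mul_of_nonneg_right h.le (norm_nonneg _)
  constructor
  · have := (Complex.abs_re_le_norm ((L - I * R) * conj N)).trans h1
    rwa [e] at this
  · have := (Complex.abs_im_le_norm ((L - I * R) * conj N)).trans h1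
    rwa [e] at this

/-- the key pointwise inequality of K2. -/
theorem CLS_k2 {L N R : ℂ} (hA : Adm L N R) (hg : GoL L N R) (h : 0 < (N * conj (N * R - L)).re) :
    -R.im < ‖N‖ * (1 + R.re) := by
  have hr : 0 < normSq R := hA.pos.2.2
  have hn : 0 < ‖N‖ := (norm_nonneg _).trans_lt hA.lo
  have h1 := (abs_le.1 (CLS_near hA.lo).1).1
  have e1 : (N * conj (N * R - L)).re = normSq N * R.re - (L * conj N).re := by
    simp only [normSq_apply, mul_re, mul_im, sub_re, sub_im, conj_re, conj_im]; ring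
  rw [e1] at h
  have hi := ALG_imN N R
  have h2 : 0 < (N * conj R).re * R.im + (N * conj R).im * R.re := by
    rw [← hi]; exact mul_pos hr hg.im
  have hb := ALG_pbet hg.im hA.reR hA.imR hg.re.le
  have h3 : ‖N‖ * (-R.im) ≤ (N * conj R).im := by
    have h4 := ALG_pyth N R
    have h5 : ((N * conj R).re * (-R.im)) ^ 2 ≤ ((N * conj R).im * R.re) ^ 2 := by
      have : 0 < -R.im := by have := hA.imR; linarith
      have h6 := hg.re
      apply pow_le_pow_left₀ (by positivity)
      linarith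
    have h7 : (‖N‖ * (-R.im)) ^ 2 * normSq R ≤ (N * conj R).im ^ 2 * normSq R := by
      have e2 : (‖N‖ * (-R.im)) ^ 2 * normSq R = (normSq N * normSq R) * (-R.im) ^ 2 := by
        rw [normSq_eq_norm_sq N]; ring
      rw [e2, ← h4, normSq_apply R]
      nlinarith
    have h8 := le_of_mul_le_mul_right h7 hr
    exact le_of_sq_le_sq h8 hb.le
  have h9 : normSq N = ‖N‖ * ‖N‖ := by rw [normSq_eq_norm_sq, pow_two]
  rw [h9] at h h1
  have h10 : ‖N‖ * (-R.im) < ‖N‖ * (‖N‖ * (1 + R.re)) := by nlinarith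
  exact lt_of_mul_lt_mul_left h10 hn.le

theorem K2L {d : ℝ} {T : ℕ → Tri} {t : Tri} (hl : Lim T t) (h0 : t.N = 0) (hR : t.R.im < 0) (hP : PMA T)
    (hg : ∀ n, GoL (T n).L (T n).N (T n).R) (hr : Run d (fun n => dropL (T n))) : False := by
  have hlo := hl.lo hP
  rw [h0, norm_zero] at hlo
  have hLR : t.L = I * t.R := by
    have := norm_le_zero_iff.1 hlo
    linear_combination this
  have hRpos : 0 < ‖t.R‖ := by
    apply norm_pos_iff.2; intro h; rw [h] at hR; simp at hR
  -- the key limit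
  have key : (∀ n, 0 < ((T n).N * conj ((T n).N * (T n).R - (T n).L)).re) → False := by
    intro h
    have h1 : ∀ n, -(T n).R.im ≤ ‖(T n).N‖ * (1 + (T n).R.re) := fun n => (CLS_k2 (hP n).2 (hg n) (h n)).le
    have h2 : Tendsto (fun n => -(T n).R.im) atTop (𝓝 (-t.R.im)) := ((Complex.continuous_im.tendsto _).comp hl.R).neg
    have h3 : Tendsto (fun n => ‖(T n).N‖ * (1 + (T n).R.re)) atTop (𝓝 (‖t.N‖ * (1 + t.R.re))) :=
      hl.N.norm.mul (((Complex.continuous_re.tendsto _).comp hl.R).const_add 1)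
    have h4 := le_of_tendsto_of_tendsto' h2 h3 h1
    rw [h0, norm_zero, zero_mul] at h4
    linarith
  cases hr with
  | top _ _ ht _ => exact key fun n => (ht n).reLN
  | goR _ _ hg' _ => exact key fun n => (hg' n).re
  | goL _ _ hg' _ =>
    have h1 : ∀ n, ‖(dropL (T n)).N - I * (dropL (T n)).R‖ ≤ ‖(dropL (T n)).L‖ := fun n => (hg' n).lt.le
    have hl' := hl.dropL
    have h2 := le_of_tendsto_of_tendsto' ((hl'.N.sub (hl'.R.const_mul I)).norm) hl'.L.norm h1
    have e : (dropL t).N - I * (dropL t).R = -2 * (I * t.R) := by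
      show t.N * t.R - t.L - I * t.R = -2 * (I * t.R)
      rw [h0, hLR]; ring
    have e2 : (dropL t).L = 0 := h0
    rw [e, e2, norm_zero, norm_mul, norm_mul, norm_I] at h2
    simp at h2
    linarith

theorem K2R {d : ℝ} {T : ℕ → Tri} {t : Tri} (hl : Lim T t) (h0 : t.N = 0) (hL : 0 < t.L.im) (hP : PMA T)
    (hg : ∀ n, GoR (T n).L (T n).N (T n).R) (hr : Run d (fun n => dropR (T n))) : False := by
  refine K2L (d := d) hl.mir ?_ ?_ hP.mir (fun n => ALG_mirGoR (hg n)) ?_
  · show conj t.N = 0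
    rw [h0, map_zero]
  · show (conj t.L).im < 0
    rw [conj_im]; linarith
  · have e : (fun n => dropL (mir (T n))) = fun n => mir (dropR (T n)) := by
      funext n; exact mir_dropL _
    rw [e]; exact hr.mir

/-- pointwise inequality for a top. -/
theorem CLS_k2t {L N R : ℂ} (hA : Adm L N R) (hT : Top L N R) : normSq R ≤ 13 * normSq N := by
  have hn : 0 < normSq N := hA.pos.2.1
  obtain ⟨h1, h2⟩ := CLS_near hA.lo
  rw [abs_le] at h1 h2
  have h3 := ALG_ges.1 hT.thL
  have h4 := ALG_ges.1 hT.thR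
  have h5 := hT.reNR
  have h6 := hT.reLN
  have h7 := ALG_pyth N R
  have a1 : (N * conj R).re ≤ 3 * normSq N := by linarith
  have a2 : (N * conj R).im ≤ 2 * normSq N := by linarith
  have a3 : -(2 * normSq N) ≤ (N * conj R).im := by linarith
  have a4 : (N * conj R).re ^ 2 ≤ (3 * normSq N) ^ 2 := pow_le_pow_left₀ h5.le a1 2
  have a5 : (N * conj R).im ^ 2 ≤ (2 * normSq N) ^ 2 := sq_le_sq' a3 a2
  have a6 : normSq N * normSq R ≤ normSq N * (13 * normSq N) := by rw [← h7]; linarith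
  exact le_of_mul_le_mul_left a6 hn

theorem K2T {T : ℕ → Tri} {t : Tri} (hl : Lim T t) (h0 : t.N = 0) (hR : t.R ≠ 0) (hP : PMA T)
    (ht : ∀ n, Top (T n).L (T n).N (T n).R) : False := by
  have nN : Tendsto (fun n => normSq (T n).N) atTop (𝓝 (normSq t.N)) := (Complex.continuous_normSq.tendsto _).comp hl.N
  have nR : Tendsto (fun n => normSq (T n).R) atTop (𝓝 (normSq t.R)) := (Complex.continuous_normSq.tendsto _).comp hl.R
  have h := le_of_tendsto_of_tendsto' nR (nN.const_mul 13) (fun n => CLS_k2t (hP n).2 (ht n))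
  rw [h0, map_zero, mul_zero] at h
  exact hR (normSq_eq_zero.1 (le_antisymm h (normSq_nonneg _)))

/-! ## Real pivot -/

theorem K1_top {d : ℝ} (hd : 0 < d) (hd1 : d ≤ 1) {T : ℕ → Tri} {t : Tri} (hl : Lim T t) (hP : PMA T)
    (hm : ∀ n, Mar d (T n).L (T n).N (T n).R) (h1 : t.L.im = 0) (h2 : 0 < t.L.re) (h3 : t.R.im < 0) (h4 : 0 ≤ t.R.re)
    (h5 : (t.N * conj t.R).im < 0) : False := by
  have hm' := hl.mar hm
  have hM := hl.mkf hP
  have hL : t.L ≠ 0 := by intro h; rw [h] at h2; simp at h2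
  have hN : t.N ≠ 0 := by intro h; rw [h] at h5; simp at h5
  obtain ⟨k1, k2⟩ := CLS_strict hd hd1 hL hN hm'.a
  have hN1 := ALG_N1 hM
  rw [h1, mul_zero] at hN1
  have hlo := ALG_sle.1 (hl.lo hP)
  have hhi := ALG_gea.1 (hl.hi hP)
  have hNre : 0 < t.N.re := by
    have e : (t.L * conj t.N).re = t.L.re * t.N.re := by
      simp only [mul_re, conj_re, conj_im, h1]; ring
    rw [e] at k1
    exact (pos_iff_pos_of_mul_pos k1).1 h2
  have hNim : t.N.im < 0 := by
    have e : (t.N * conj t.R).im = t.N.im * t.R.re - t.N.re * t.R.im := by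
      simp only [mul_im, conj_re, conj_im]; ring
    rw [e] at h5
    have : 0 < -(t.N.re * t.R.im) := by
      have : 0 < t.N.re * (-t.R.im) := mul_pos hNre (by linarith)
      linarith
    by_contra hcon
    push Not at hcon
    have := mul_nonneg hcon h4
    linarith
  have hpa : 0 < (t.L * conj t.N).im := by
    have e : (t.L * conj t.N).im = t.L.re * (-t.N.im) := by
      simp only [mul_im, conj_re, conj_im, h1]; ring
    rw [e]; exact mul_pos h2 (by linarith)
  have hpg : 0 < (t.L * conj t.R).im := by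
    have e : (t.L * conj t.R).im = t.L.re * (-t.R.im) := by
      simp only [mul_im, conj_re, conj_im, h1]; ring
    rw [e]; exact mul_pos h2 (by linarith)
  have hq := ALG_pyth t.L t.R
  have hD : 0 ≤ 4 * (normSq t.L * normSq t.R) - (normSq t.L + normSq t.R - normSq t.N) ^ 2 := by
    rw [← hq]
    nlinarith [sq_nonneg (t.L * conj t.R).re]
  set S := Real.sqrt (4 * (normSq t.L * normSq t.R) - (normSq t.L + normSq t.R - normSq t.N) ^ 2) with hS
  have hS0 : 0 ≤ S := Real.sqrt_nonneg _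
  have hS2 : S ^ 2 = 4 * (normSq t.L * normSq t.R) - (normSq t.L + normSq t.R - normSq t.N) ^ 2 := Real.sq_sqrt hD
  have hS3 : S ^ 2 = 4 * (normSq t.L * normSq t.N) - (normSq t.L + normSq t.N - normSq t.R) ^ 2 := by rw [hS2]; ring
  have a1 := (ALG_A1c hq rfl hS2 hS0 hlo hhi).2
  have a2 := ALG_A2 (ALG_pyth t.L t.N) rfl hS3 hS0 k1 (by have := hm'.tr; linarith)
  have a3 := mul_le_mul_of_nonneg_right a1 hpa.le
  have a4 := mul_lt_mul_of_pos_right a2 hpg
  linarith

theorem K1 {d : ℝ} (hd : 0 < d) (hd1 : d ≤ 1) {T : ℕ → Tri} (hr : Run d T) : ∀ t : Tri, Lim T t → t.L.im = 0 →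
    0 < t.L.re → t.R.im < 0 → 0 ≤ t.R.re → (t.N * conj t.R).im < 0 → False := by
  induction hr with
  | top T hP _ hm => intro t hl h1 h2 h3 h4 h5; exact K1_top hd hd1 hl hP hm h1 h2 h3 h4 h5
  | goL T hP hg hr' _ =>
    intro t hl h1 h2 h3 h4 h5
    have k1 : 0 ≤ t.N.im := ge_of_tendsto' hl.imN (fun n => (hg n).im.le)
    have k2 : 0 ≤ t.N.re := (hl.dropL).reL hr'.pma
    have e : (t.N * conj t.R).im = t.N.im * t.R.re - t.N.re * t.R.im := by
      simp only [mul_im, conj_re, conj_im]; ring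
    rw [e] at h5
    have k3 := mul_nonneg k1 h4
    have k4 : 0 ≤ t.N.re * (-t.R.im) := mul_nonneg k2 (by linarith)
    linarith
  | goR T hP hg hr' ih =>
    intro t hl h1 h2 h3 h4 h5
    have k1 : t.N.im ≤ 0 := le_of_tendsto' hl.imN (fun n => (hg n).im.le)
    have k2 : 0 ≤ (t.L * conj t.N).re := ge_of_tendsto' hl.reLN (fun n => (hg n).re.le)
    have e0 : (t.L * conj t.N).re = t.L.re * t.N.re := by
      simp only [mul_re, conj_re, conj_im, h1]; ring
    rw [e0] at k2
    have k3 : 0 ≤ t.N.re := by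
      by_contra hcon
      push Not at hcon
      have := mul_neg_of_pos_of_neg h2 hcon
      linarith
    have e : (t.N * conj t.R).im = t.N.im * t.R.re - t.N.re * t.R.im := by
      simp only [mul_im, conj_re, conj_im]; ring
    have k4 : t.N.im < 0 := by
      rcases k1.eq_or_lt with h | h
      · exfalso
        rw [e, h] at h5
        have : 0 ≤ t.N.re * (-t.R.im) := mul_nonneg k3 (by linarith)
        linarith
      · exact h
    refine ih (dropR t) hl.dropR h1 h2 k4 k3 ?_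
    have e2 : ((dropR t).N * conj (dropR t).R).im = (t.N * conj t.R).im := by
      show ((t.L * t.N - t.R) * conj t.N).im = (t.N * conj t.R).im
      simp only [mul_im, mul_re, sub_re, sub_im, conj_re, conj_im, h1]; ring
    rw [e2]; exact h5

/-! ## The real axis -/

theorem K4 {d : ℝ} (hd : 0 < d) (hd1 : d ≤ 1) {T : ℕ → Tri} (hr : Run d T) {x : ℝ} (hx : 0 < x)
    (hl : Lim T ⟨x, I * x, 0⟩) : False := by
  have hP := hr.pma
  have hpi := Real.pi_gt_three
  have hs : 0 < Real.sin d := Real.sin_pos_of_pos_of_lt_pi hd (by linarith)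
  -- ε_n = ‖N - i x‖ → 0
  have hε : Tendsto (fun n => ‖(T n).N - I * x‖) atTop (𝓝 0) := by
    have := (hl.N.sub_const (I * (x : ℂ))).norm
    simpa using this
  have hRpos : ∀ n, 0 < ‖(T n).R‖ := fun n => by
    apply norm_pos_iff.2; intro h; have := (hP n).2.reR; rw [h] at this; simp at this
  -- Re (N conj R) ≤ x Im R + ε ‖R‖
  have hNR : ∀ n, ((T n).N * conj (T n).R).re ≤ x * (T n).R.im + ‖(T n).N - I * x‖ * ‖(T n).R‖ := by
    intro n
    have e : ((T n).N * conj (T n).R).re = x * (T n).R.im + (((T n).N - I * x) * conj (T n).R).re := by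
      simp only [mul_re, mul_im, sub_re, sub_im, I_re, I_im, ofReal_re, ofReal_im, conj_re, conj_im]; ring
    rw [e]
    have := Complex.re_le_norm (((T n).N - I * x) * conj (T n).R)
    rw [norm_mul, Complex.norm_conj] at this
    linarith
  cases hr with
  | top _ _ ht hm =>
    have h1 : ∀ n, Real.sin d * ‖(T n).N‖ ≤ ‖(T n).N - I * x‖ := by
      intro n
      have h2 := (hm n).b
      have h3 := hNR n
      have h4 := mul_neg_of_pos_of_neg hx (hP n).2.imR
      have h5 : (Real.sin d * ‖(T n).N‖) * ‖(T n).R‖ ≤ ‖(T n).N - I * x‖ * ‖(T n).R‖ := by linarith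
      exact le_of_mul_le_mul_right h5 (hRpos n)
    have h2 := le_of_tendsto_of_tendsto' (hl.N.norm.const_mul (Real.sin d)) hε h1
    have h3 : ‖(I * x : ℂ)‖ = x := by rw [norm_mul, norm_I, one_mul, Complex.norm_real, Real.norm_of_nonneg hx.le]
    have h4 : Real.sin d * ‖(I * x : ℂ)‖ ≤ 0 := h2
    rw [h3] at h4
    have := mul_pos hs hx
    linarith
  | goR _ _ hg _ =>
    have h1 : (I * x : ℂ).im ≤ 0 := le_of_tendsto' hl.imN (fun n => (hg n).im.le)
    simp at h1
    linarith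
  | goL _ _ hg hr' =>
    -- the next entry N' = N R - L → -x
    have hl' := hl.dropL
    have hδ : Tendsto (fun n => ‖(dropL (T n)).N + x‖) atTop (𝓝 0) := by
      have := (hl'.N.add_const (x : ℂ)).norm
      have e : (dropL ⟨(x : ℂ), I * x, 0⟩).N + (x : ℂ) = 0 := by simp [dropL]
      rw [e, norm_zero] at this
      exact this
    have key : (∀ n, 0 < ((dropL (T n)).N * conj (dropL (T n)).R).re) → False := by
      intro h
      have h1 : ∀ n, x ≤ ‖(dropL (T n)).N + x‖ + ‖(T n).N - I * x‖ := by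
        intro n
        have h2 := h n
        have e : ((dropL (T n)).N * conj (dropL (T n)).R).re =
            -(x * (T n).R.re) + (((dropL (T n)).N + x) * conj (T n).R).re := by
          show ((dropL (T n)).N * conj (T n).R).re = _
          simp only [mul_re, add_re, add_im, ofReal_re, ofReal_im, conj_re, conj_im]; ring
        rw [e] at h2
        have h3 := Complex.re_le_norm (((dropL (T n)).N + x) * conj (T n).R)
        rw [norm_mul, Complex.norm_conj] at h3
        have h4 := hNR n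
        have h5 := (hg n).re
        have h6 : ‖(T n).R‖ ≤ (T n).R.re + (-(T n).R.im) := by
          have h7 := Complex.norm_le_abs_re_add_abs_im (T n).R
          rw [abs_of_pos (hP n).2.reR, abs_of_neg (hP n).2.imR] at h7
          exact h7
        have h8 : x * ‖(T n).R‖ ≤ (‖(dropL (T n)).N + x‖ + ‖(T n).N - I * x‖) * ‖(T n).R‖ := by
          have h9 := mul_le_mul_of_nonneg_left h6 hx.le
          linarith
        exact le_of_mul_le_mul_right h8 (hRpos n)
      have h2 := ge_of_tendsto' (hδ.add hε) h1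
      linarith
    cases hr' with
    | top _ _ ht _ => exact key fun n => (ht n).reNR
    | goL _ _ hg' _ => exact key fun n => (hg' n).re
    | goR _ _ hg' _ =>
      have h1 : ∀ n, ‖(dropL (T n)).L - I * (dropL (T n)).N‖ ≤ ‖(dropL (T n)).R‖ := fun n => (hg' n).lt.le
      have h2 := le_of_tendsto_of_tendsto' ((hl'.L.sub (hl'.N.const_mul I)).norm) hl'.R.norm h1
      have e : (dropL ⟨(x : ℂ), I * x, 0⟩).L - I * (dropL ⟨(x : ℂ), I * x, 0⟩).N = 2 * (I * x) := by
        simp only [dropL]; ring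
      have e2 : (dropL ⟨(x : ℂ), I * x, 0⟩).R = 0 := rfl
      rw [e, e2, norm_zero, norm_mul, norm_mul, norm_I] at h2
      simp at h2
      rw [abs_of_pos hx] at h2
      linarith

theorem K3 {d : ℝ} (hd : 0 < d) (hd1 : d ≤ 1) {T : ℕ → Tri} (hr : Run d T) : ∀ x a b : ℝ, 0 < x → 0 < b →
    Lim T ⟨x, -I * a, -I * b⟩ → False := by
  have hpi := Real.pi_gt_three
  have hs : 0 < Real.sin d := Real.sin_pos_of_pos_of_lt_pi hd (by linarith)
  induction hr with
  | top T hP ht hm =>
    intro x a b hx hb hl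
    have h1 := (hl.mar hm).a
    have e : ((x : ℂ) * conj (-I * (a : ℂ))).re = 0 := by
      simp [mul_re, mul_im]
    have h2 : Real.sin d * (‖(x : ℂ)‖ * ‖(-I * (a : ℂ))‖) ≤ ((x : ℂ) * conj (-I * (a : ℂ))).re := h1
    rw [e] at h2
    have h3 : 0 < ‖(x : ℂ)‖ := norm_pos_iff.2 (by exact_mod_cast hx.ne')
    have h4 : ‖(-I * (a : ℂ))‖ = 0 := by
      by_contra hcon
      have : 0 < ‖(-I * (a : ℂ))‖ := lt_of_le_of_ne (norm_nonneg _) (Ne.symm hcon)
      have := mul_pos hs (mul_pos h3 this)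
      linarith
    refine K2T hl (norm_eq_zero.1 h4) ?_ hP ht
    show -I * (b : ℂ) ≠ 0
    exact mul_ne_zero (neg_ne_zero.2 I_ne_zero) (by exact_mod_cast hb.ne')
  | goL T hP hg hr' _ =>
    intro x a b hx hb hl
    have h1 : 0 ≤ (-I * (a : ℂ)).im := ge_of_tendsto' hl.imN (fun n => (hg n).im.le)
    have h2 : 0 ≤ ((-I * (a : ℂ)) * conj (-I * (b : ℂ))).re := ge_of_tendsto' hl.reNR (fun n => (hg n).re.le)
    have e1 : (-I * (a : ℂ)).im = -a := by simp
    have e2 : ((-I * (a : ℂ)) * conj (-I * (b : ℂ))).re = a * b := by simp [mul_re, mul_im]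
    rw [e1] at h1
    rw [e2] at h2
    have ha : a = 0 := by
      rcases lt_trichotomy a 0 with h | h | h
      · have := mul_neg_of_neg_of_pos h hb; linarith
      · exact h
      · linarith
    refine K2L hl ?_ ?_ hP hg hr'
    · show -I * (a : ℂ) = 0
      rw [ha]; simp
    · show (-I * (b : ℂ)).im < 0
      simp; exact hb
  | goR T hP hg hr' ih =>
    intro x a b hx hb hl
    have h1 : (-I * (a : ℂ)).im ≤ 0 := le_of_tendsto' hl.imN (fun n => (hg n).im.le)
    have e1 : (-I * (a : ℂ)).im = -a := by simp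
    rw [e1] at h1
    rcases (show 0 ≤ a by linarith).eq_or_lt with ha | ha
    · -- a = 0: then b = x
      have h2 : ‖(x : ℂ) - I * (-I * (b : ℂ))‖ ≤ ‖(-I * (a : ℂ))‖ := hl.lo hP
      rw [← ha] at h2
      have e2 : (x : ℂ) - I * (-I * (b : ℂ)) = ((x - b : ℝ) : ℂ) := by
        push_cast; linear_combination ((b : ℂ)) * I_sq
      rw [e2, ofReal_zero, mul_zero, norm_zero, Complex.norm_real] at h2
      have h3 : x - b = 0 := norm_le_zero_iff.1 h2
      have hbx : b = x := by linarith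
      refine K4 hd hd1 hr' hx ?_
      have h4 := hl.dropR
      have e3 : dropR ⟨(x : ℂ), -I * (a : ℂ), -I * (b : ℂ)⟩ = ⟨(x : ℂ), I * x, 0⟩ := by
        simp only [dropR]
        rw [← ha, hbx]; simp
      rw [e3] at h4
      exact h4
    · refine ih x (x * a - b) a hx ha ?_
      have h4 := hl.dropR
      have e3 : dropR ⟨(x : ℂ), -I * (a : ℂ), -I * (b : ℂ)⟩ = ⟨(x : ℂ), -I * ((x * a - b : ℝ) : ℂ), -I * (a : ℂ)⟩ := by
        simp only [dropR]
        push_cast
        congr 1; ring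
      rw [e3] at h4
      exact h4

/-! ## Right angle -/

theorem neg_iff_neg_of_mul_neg' {a b : ℝ} (ha : 0 < a) (h : a * b < 0) : b < 0 := by
  by_contra hcon
  push Not at hcon
  have := mul_nonneg ha.le hcon
  linarith

theorem K5 {d : ℝ} {T : ℕ → Tri} {t : Tri} (hl : Lim T t) (hr : Run d (fun n => dropL (T n))) (hM : Mk t.L t.N t.R)
    (hA : Adm t.L t.N t.R) (him : 0 < t.N.im) (h0 : (t.N * conj t.R).re = 0) (hg : 0 < (t.L * conj t.R).re) : False := by
  obtain ⟨hlp, hnp, hrp⟩ := hA.pos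
  have hpg := ALG_pgam hA.reL hA.imL hA.reR hA.imR
  have hpb := ALG_pbet him hA.reR hA.imR h0.ge
  set L := t.L with hL
  set N := t.N with hN
  set R := t.R with hR
  set r := normSq R with hr0
  set l := normSq L with hl0
  set pb := (N * conj R).im with hpb0
  have hr1 : (r : ℂ) = conj R * R := normSq_eq_conj_mul_self
  have hl1 : (l : ℂ) = conj L * L := normSq_eq_conj_mul_self
  -- r N = i pb R
  have e1 : (r : ℂ) * N = I * pb * R := by
    have h1 : N * conj R = I * pb := by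
      apply Complex.ext
      · rw [h0]; simp
      · simp [hpb0]
    calc (r : ℂ) * N = (N * conj R) * R := by rw [hr1]; ring
      _ = _ := by rw [h1]
  -- r^2 l N' = (r^2 - pb^2) R^2 conj L
  have e2 : (r : ℂ) ^ 2 * l * (N * R - L) = ((r : ℂ) ^ 2 - pb ^ 2) * R ^ 2 * conj L := by
    have h1 : L * (N * R - L) = N ^ 2 + R ^ 2 := by unfold Mk at hM; linear_combination -hM
    have h2 : (r : ℂ) ^ 2 * (N ^ 2 + R ^ 2) = ((r : ℂ) ^ 2 - pb ^ 2) * R ^ 2 := by
      have : (r : ℂ) ^ 2 * N ^ 2 = (I * pb * R) ^ 2 := by rw [← e1]; ring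
      rw [mul_add, this]
      linear_combination ((pb : ℂ) ^ 2 * R ^ 2) * I_sq
    calc (r : ℂ) ^ 2 * l * (N * R - L) = conj L * ((r : ℂ) ^ 2 * (L * (N * R - L))) := by
          rw [hl1]; ring
      _ = _ := by rw [h1, h2]; ring
  -- the three real quantities
  have q1 : r * l * ((N * R - L) * conj R).re = (r ^ 2 - pb ^ 2) * (L * conj R).re := by
    have h1 : (r : ℂ) * ((r : ℂ) * l * ((N * R - L) * conj R)) = (r : ℂ) * (((r : ℂ) ^ 2 - pb ^ 2) * conj (L * conj R)) := by
      calc _ = ((r : ℂ) ^ 2 * l * (N * R - L)) * conj R := by ring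
        _ = ((r : ℂ) ^ 2 - pb ^ 2) * R ^ 2 * conj L * conj R := by rw [e2]
        _ = _ := by
          have h9 : conj (L * conj R) = conj L * R := by rw [map_mul, conj_conj]
          rw [h9]
          have h10 : (r : ℂ) * (((r : ℂ) ^ 2 - pb ^ 2) * (conj L * R)) = ((r : ℂ) ^ 2 - pb ^ 2) * (conj L * R) * (conj R * R) := by
            rw [← hr1]; ring
          rw [h10]; ring
    have h2 := mul_left_cancel₀ (by exact_mod_cast hrp.ne' : (r : ℂ) ≠ 0) h1
    have h3 := congrArg Complex.re h2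
    have h4 : ((r : ℂ) * l * ((N * R - L) * conj R)) = ((r * l : ℝ) : ℂ) * ((N * R - L) * conj R) := by push_cast; ring
    have h5 : ((r : ℂ) ^ 2 - pb ^ 2) * conj (L * conj R) = ((r ^ 2 - pb ^ 2 : ℝ) : ℂ) * conj (L * conj R) := by push_cast; ring
    rw [h4, h5, re_ofReal_mul, re_ofReal_mul, conj_re] at h3
    exact h3
  have q2 : r ^ 2 * l * (N * conj (N * R - L)).re = -((r ^ 2 - pb ^ 2) * pb * (L * conj R).im) := by
    have h1 : (r : ℂ) * ((r : ℂ) ^ 2 * l * (N * conj (N * R - L))) = (r : ℂ) * (((r : ℂ) ^ 2 - pb ^ 2) * (I * pb) * (L * conj R)) := by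
      have h2 := congrArg conj e2
      simp only [map_mul, map_pow, map_sub, conj_ofReal, conj_conj] at h2
      calc _ = ((r : ℂ) * N) * ((r : ℂ) ^ 2 * l * (conj N * conj R - conj L)) := by rw [map_sub, map_mul]; ring
        _ = (I * pb * R) * (((r : ℂ) ^ 2 - pb ^ 2) * (conj R) ^ 2 * L) := by rw [h2, e1]
        _ = ((r : ℂ) ^ 2 - pb ^ 2) * (I * pb) * (L * conj R) * (conj R * R) := by ring
        _ = _ := by rw [← hr1]; ring
    have h2 := mul_left_cancel₀ (by exact_mod_cast hrp.ne' : (r : ℂ) ≠ 0) h1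
    have h3 := congrArg Complex.re h2
    have h4 : ((r : ℂ) ^ 2 * l * (N * conj (N * R - L))) = ((r ^ 2 * l : ℝ) : ℂ) * (N * conj (N * R - L)) := by push_cast; ring
    have h5 : ((r : ℂ) ^ 2 - pb ^ 2) * (I * pb) * (L * conj R) = ((((r ^ 2 - pb ^ 2) * pb : ℝ)) : ℂ) * (I * (L * conj R)) := by
      push_cast; ring
    rw [h4, h5, re_ofReal_mul, re_ofReal_mul] at h3
    have h6 : (I * (L * conj R)).re = -(L * conj R).im := by rw [mul_re, I_re, I_im]; ring
    rw [h6] at h3
    linarith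
  have q3 : r ^ 2 * l * (N * R - L).im = (r ^ 2 - pb ^ 2) * (R.im * (L * conj R).re - R.re * (L * conj R).im) := by
    have h3 := congrArg Complex.im e2
    have h4 : (r : ℂ) ^ 2 * l * (N * R - L) = ((r ^ 2 * l : ℝ) : ℂ) * (N * R - L) := by push_cast; ring
    have h5 : ((r : ℂ) ^ 2 - pb ^ 2) * R ^ 2 * conj L = ((r ^ 2 - pb ^ 2 : ℝ) : ℂ) * (R * conj (L * conj R)) := by
      rw [map_mul, conj_conj]; push_cast; ring
    rw [h4, h5, im_ofReal_mul, im_ofReal_mul, mul_im R, conj_re, conj_im] at h3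
    rw [h3]; ring
  have hneg : R.im * (L * conj R).re - R.re * (L * conj R).im < 0 := by
    have h1 := mul_neg_of_neg_of_pos hA.imR hg
    have h2 := mul_pos hA.reR hpg
    linarith
  have hl' := hl.dropL
  have hP' := hr.pma
  have c1 : 0 < r ^ 2 * l := by positivity
  have c2 : 0 < r * l := by positivity
  rcases lt_trichotomy r pb with hk | hk | hk
  · -- k > 1
    have hs : r ^ 2 - pb ^ 2 < 0 := by nlinarith
    have n1 : ((N * R - L) * conj R).re < 0 := by
      have : r * l * ((N * R - L) * conj R).re < 0 := by rw [q1]; exact mul_neg_of_neg_of_pos hs hg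
      exact (neg_iff_neg_of_mul_neg' c2 this)
    have n3 : 0 < (N * R - L).im := by
      have : 0 < r ^ 2 * l * (N * R - L).im := by rw [q3]; exact mul_pos_of_neg_of_neg hs hneg
      exact (pos_iff_pos_of_mul_pos this).1 c1
    cases hr with
    | top _ _ ht _ =>
      have h1 : 0 ≤ ((N * R - L) * conj R).re := ge_of_tendsto' hl'.reNR (fun n => (ht n).reNR.le)
      linarith
    | goL _ _ hg' _ =>
      have h1 : 0 ≤ ((N * R - L) * conj R).re := ge_of_tendsto' hl'.reNR (fun n => (hg' n).re.le)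
      linarith
    | goR _ _ hg' _ =>
      have h1 : (N * R - L).im ≤ 0 := le_of_tendsto' hl'.imN (fun n => (hg' n).im.le)
      linarith
  · -- k = 1
    have hz : N * R - L = 0 := by
      have h1 : (r : ℂ) ^ 2 * l * (N * R - L) = 0 := by rw [e2, ← hk]; ring
      rcases mul_eq_zero.1 h1 with h2 | h2
      · exfalso
        have : ((r ^ 2 * l : ℝ) : ℂ) = 0 := by push_cast; exact h2
        exact c1.ne' (by exact_mod_cast this)
      · exact h2
    have hRne : R ≠ 0 := normSq_pos.1 hrp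
    cases hr with
    | top _ _ ht _ => exact K2T hl' hz hRne hP' ht
    | goL _ _ hg' hr' => exact K2L hl' hz hA.imR hP' hg' hr'
    | goR _ _ hg' hr' => exact K2R hl' hz him hP' hg' hr'
  · -- k < 1
    have hs : 0 < r ^ 2 - pb ^ 2 := by nlinarith
    have n2 : (N * conj (N * R - L)).re < 0 := by
      have : r ^ 2 * l * (N * conj (N * R - L)).re < 0 := by
        rw [q2]
        have := mul_pos (mul_pos hs hpb) hpg
        linarith
      exact (neg_iff_neg_of_mul_neg' c1 this)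
    have n3 : (N * R - L).im < 0 := by
      have : r ^ 2 * l * (N * R - L).im < 0 := by rw [q3]; exact mul_neg_of_pos_of_neg hs hneg
      exact (neg_iff_neg_of_mul_neg' c1 this)
    cases hr with
    | top _ _ ht _ =>
      have h1 : 0 ≤ (N * conj (N * R - L)).re := ge_of_tendsto' hl'.reLN (fun n => (ht n).reLN.le)
      linarith
    | goL _ _ hg' _ =>
      have h1 : 0 ≤ (N * R - L).im := ge_of_tendsto' hl'.imN (fun n => (hg' n).im.le)
      linarith
    | goR _ _ hg' _ =>
      have h1 : 0 ≤ (N * conj (N * R - L)).re := ge_of_tendsto' hl'.reLN (fun n => (hg' n).re.le)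
      linarith

/-! ## One step of the limit -/

theorem KEYL {d : ℝ} (hd : 0 < d) (hd1 : d ≤ 1) {T : ℕ → Tri} {t : Tri} (hl : Lim T t)
    (hg : ∀ n, GoL (T n).L (T n).N (T n).R) (hr : Run d (fun n => dropL (T n))) (hM : Mk t.L t.N t.R)
    (hA : Adm t.L t.N t.R) (h0 : 0 < (t.L * conj t.R).re ∨ 0 < (t.N * conj t.R).re) :
    GoL t.L t.N t.R ∨ Top t.L t.N t.R := by
  have k1 : 0 ≤ t.N.im := ge_of_tendsto' hl.imN (fun n => (hg n).im.le)
  have k2 : 0 ≤ (t.N * conj t.R).re := ge_of_tendsto' hl.reNR (fun n => (hg n).re.le)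
  have hpg := ALG_pgam hA.reL hA.imL hA.reR hA.imR
  rcases k1.eq_or_lt with him | him
  · -- real pivot
    exfalso
    have e : (t.N * conj t.R).re = t.N.re * t.R.re := by
      simp only [mul_re, conj_re, conj_im, ← him]; ring
    have hN0 : t.N ≠ 0 := by
      intro h; have := (norm_nonneg _).trans_lt hA.lo; rw [h, norm_zero] at this; exact lt_irrefl _ this
    have hNre : 0 < t.N.re := by
      rw [e] at k2
      have h1 : 0 ≤ t.N.re := by
        by_contra hcon
        push Not at hcon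
        have := mul_neg_of_neg_of_pos hcon hA.reR
        linarith
      rcases h1.eq_or_lt with h | h
      · exact absurd (Complex.ext h.symm him.symm) hN0
      · exact h
    refine K1 hd hd1 hr (dropL t) hl.dropL him.symm hNre hA.imR hA.reR.le ?_
    have e2 : ((dropL t).N * conj (dropL t).R).im = -(t.L * conj t.R).im := by
      show ((t.N * t.R - t.L) * conj t.R).im = _
      simp only [mul_im, mul_re, sub_re, sub_im, conj_re, conj_im, ← him]; ring
    rw [e2]; linarith
  · rcases k2.eq_or_lt with hre | hre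
    · exfalso
      rcases h0 with h0 | h0
      · exact K5 hl hr hM hA him hre.symm h0
      · linarith
    · rcases lt_or_ge ‖t.N - I * t.R‖ ‖t.L‖ with h | h
      · exact Or.inl ⟨him, hre, h⟩
      · exact Or.inr (RULEL hM hA him hre h)

theorem KEYR {d : ℝ} (hd : 0 < d) (hd1 : d ≤ 1) {T : ℕ → Tri} {t : Tri} (hl : Lim T t)
    (hg : ∀ n, GoR (T n).L (T n).N (T n).R) (hr : Run d (fun n => dropR (T n))) (hM : Mk t.L t.N t.R)
    (hA : Adm t.L t.N t.R) (h0 : 0 < (t.L * conj t.R).re ∨ 0 < (t.L * conj t.N).re) :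
    GoR t.L t.N t.R ∨ Top t.L t.N t.R := by
  have hr' : Run d (fun n => dropL (mir (T n))) := by
    have e : (fun n => dropL (mir (T n))) = fun n => mir (dropR (T n)) := by
      funext n; exact mir_dropL _
    rw [e]; exact hr.mir
  have h := KEYL hd hd1 hl.mir (fun n => ALG_mirGoR (hg n)) hr' (ALG_mirMk hM) (ALG_mirAdm hA) (by
    rcases h0 with h | h
    · left; show 0 < (conj t.R * conj (conj t.L)).re
      rw [ALG_remir]; exact h
    · right; show 0 < (conj t.N * conj (conj t.L)).re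
      rw [ALG_remir]; exact h)
  rcases h with h | h
  · left
    have h1 := ALG_mirGoL h
    simpa only [mir, conj_conj] using h1
  · right
    have h1 := ALG_mirTop h
    simpa only [mir, conj_conj] using h1

/-! ## Small points -/

/-- no top at the root for `‖z‖ < 1`. -/
theorem CLS_small0 {z : ℂ} (hz : z ∈ Qd) (h1 : ‖z‖ < 1) : ¬ Top (root z).L (root z).N (root z).R := by
  intro hT
  obtain ⟨hx, hy⟩ := hz
  have hn : 0 < ‖z‖ := by
    apply norm_pos_iff.2; rintro rfl; simp at hx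
  have e1 : (root z).N - I * (root z).R = -z * (1 + I * z) := by
    simp only [root]; linear_combination z * I_sq
  have e2 : (root z).L - I * (root z).N = z * (1 - z) := by
    simp only [root]; linear_combination (z ^ 2) * I_sq
  have e3 : ‖(root z).R‖ = ‖z‖ := by simp only [root]; rw [norm_mul, norm_neg, norm_I, one_mul]
  have a1 := hT.thL
  have a2 := hT.thR
  rw [e1, norm_mul, norm_neg] at a1
  rw [e2, e3, norm_mul] at a2
  have b1 : 1 ≤ ‖1 + I * z‖ := by
    have h3 : ‖z‖ * 1 ≤ ‖z‖ * ‖1 + I * z‖ := by rw [mul_one]; exact a1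
    exact le_of_mul_le_mul_left h3 hn
  have b2 : 1 ≤ ‖1 - z‖ := by
    have h3 : ‖z‖ * 1 ≤ ‖z‖ * ‖1 - z‖ := by rw [mul_one]; exact a2
    exact le_of_mul_le_mul_left h3 hn
  have c1 : 1 ≤ ‖1 + I * z‖ ^ 2 := one_le_pow₀ b1
  have c2 : 1 ≤ ‖1 - z‖ ^ 2 := one_le_pow₀ b2
  have c3 : ‖z‖ ^ 2 < 1 := by nlinarith
  rw [← normSq_eq_norm_sq, normSq_apply] at c1 c2 c3
  simp only [add_re, add_im, sub_re, sub_im, mul_re, mul_im, I_re, I_im, one_re, one_im] at c1 c2
  nlinarith

/-- after the first move (drop L) nothing is possible for `‖z‖ < 1`. -/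
theorem CLS_small1 {z : ℂ} (hz : z ∈ Qd) (h1 : ‖z‖ < 1) :
    (dropL (root z)).N.im < 0 ∧ ((dropL (root z)).L * conj (dropL (root z)).N).re < 0 := by
  obtain ⟨hx, hy⟩ := hz
  have c3 : ‖z‖ ^ 2 < 1 := by nlinarith [norm_nonneg z]
  rw [← normSq_eq_norm_sq, normSq_apply] at c3
  have e1 : (dropL (root z)).N = -z * (1 + z ^ 2) := by
    simp only [root, dropL]; linear_combination (z ^ 3) * I_sq
  have e2 : (dropL (root z)).L = -I * z ^ 2 := rfl
  rw [e1, e2]
  have hx2 : 0 < z.re * z.re := mul_pos hx hx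
  have hy2 : 0 < z.im * z.im := mul_pos hy hy
  constructor
  · have : (-z * (1 + z ^ 2)).im = -(z.im * (1 + 3 * (z.re * z.re) - z.im * z.im)) := by
      simp only [pow_two, mul_im, mul_re, neg_re, neg_im, add_re, add_im, one_re, one_im]; ring
    rw [this]
    have : 0 < z.im * (1 + 3 * (z.re * z.re) - z.im * z.im) := mul_pos hy (by linarith)
    linarith
  · have : (-I * z ^ 2 * conj (-z * (1 + z ^ 2))).re =
        -(z.im * (z.re * z.re + z.im * z.im) * (1 - (z.re * z.re + z.im * z.im))) := by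
      simp only [pow_two, map_mul, map_neg, map_add, map_one, mul_im, mul_re, neg_re, neg_im, add_re, add_im, one_re, one_im,
        conj_re, conj_im, I_re, I_im]
      ring
    rw [this]
    have : 0 < z.im * (z.re * z.re + z.im * z.im) * (1 - (z.re * z.re + z.im * z.im)) :=
      mul_pos (mul_pos hy (by linarith)) (by linarith)
    linarith

/-- the mirror of the root. -/
theorem mir_root (z : ℂ) : mir (root z) = root (I * conj z) := by
  simp only [mir, root, map_mul, map_neg, map_pow, conj_I, neg_neg]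
  congr 1
  · linear_combination (I * (conj z) ^ 2) * I_sq
  · linear_combination (conj z) * I_sq

theorem CLS_mirQd {z : ℂ} (hz : z ∈ Qd) : I * conj z ∈ Qd := by
  obtain ⟨hx, hy⟩ := hz
  constructor
  · simp [mul_re]; exact hy
  · simp [mul_im]; exact hx

theorem CLS_mirnorm (z : ℂ) : ‖I * conj z‖ = ‖z‖ := by
  rw [norm_mul, norm_I, one_mul, Complex.norm_conj]

theorem CLS_smallL {d : ℝ} {u : ℕ → ℂ} (hq : ∀ n, u n ∈ Qd) {n : ℕ} (h1 : ‖u n‖ < 1)
    (hr : Run d (fun n => dropL (root (u n)))) : False := by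
  obtain ⟨h2, h3⟩ := CLS_small1 (hq n) h1
  cases hr with
  | top _ _ ht _ => have := (ht n).reLN; linarith
  | goL _ _ hg _ => have := (hg n).im; linarith
  | goR _ _ hg _ => have := (hg n).re; linarith

theorem CLS_small {d : ℝ} {u : ℕ → ℂ} (hq : ∀ n, u n ∈ Qd) {n : ℕ} (h1 : ‖u n‖ < 1)
    (hr : Run d (fun n => root (u n))) : False := by
  cases hr with
  | top _ _ ht _ => exact CLS_small0 (hq n) h1 (ht n)
  | goL _ _ hg hr' => exact CLS_smallL hq h1 hr'
  | goR _ _ hg hr' =>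
    have e : (fun n => mir (dropR (root (u n)))) = fun n => dropL (root (I * conj (u n))) := by
      funext n; rw [← mir_dropL, mir_root]
    have hr'' := hr'.mir
    rw [e] at hr''
    exact CLS_smallL (fun n => CLS_mirQd (hq n)) (by rw [CLS_mirnorm]; exact h1) hr''

/-! ## The limit point is in the open quadrant -/

theorem CLS_lim (w : List Bool) {u : ℕ → ℂ} {z : ℂ} (h : Tendsto u atTop (𝓝 z)) : Lim (fun n => Tr w (u n)) (Tr w z) := by
  obtain ⟨c1, c2, c3⟩ := OPN_cont w
  exact ⟨(c1.tendsto z).comp h, (c2.tendsto z).comp h, (c3.tendsto z).comp h⟩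

theorem CLS_Qd {d : ℝ} (hd : 0 < d) (hd1 : d ≤ 1) {u : ℕ → ℂ} {z : ℂ} (hq : ∀ n, u n ∈ Qd) (h : Tendsto u atTop (𝓝 z))
    (hr : Run d (fun n => root (u n))) : z ∈ Qd := by
  have hre : 0 ≤ z.re := ge_of_tendsto' ((Complex.continuous_re.tendsto _).comp h) (fun n => (hq n).1.le)
  have him : 0 ≤ z.im := ge_of_tendsto' ((Complex.continuous_im.tendsto _).comp h) (fun n => (hq n).2.le)
  have hne : z ≠ 0 := by
    rintro rfl
    have h1 : ∀ᶠ n in atTop, ‖u n‖ < 1 := by
      have h2 := h.norm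
      rw [norm_zero] at h2
      exact h2.eventually (gt_mem_nhds one_pos)
    obtain ⟨n, hn⟩ := h1.exists
    exact CLS_small hq hn hr
  have hlim : Lim (fun n => root (u n)) (root z) := CLS_lim [] h
  refine ⟨?_, ?_⟩
  · rcases hre.eq_or_lt with h0 | h0
    · exfalso
      have hy : 0 < z.im := by
        rcases him.eq_or_lt with h1 | h1
        · exact absurd (Complex.ext h0.symm h1.symm) hne
        · exact h1
      refine K3 hd hd1 hr.mir z.im (z.im ^ 2) z.im hy hy ?_
      have h1 := hlim.mir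
      have e : mir (root z) = ⟨((z.im : ℝ) : ℂ), -I * ((z.im ^ 2 : ℝ) : ℂ), -I * ((z.im : ℝ) : ℂ)⟩ := by
        have hz : z = I * (z.im : ℂ) := by
          apply Complex.ext
          · simp [h0.symm]
          · simp
        rw [mir_root]
        have e2 : I * conj z = (z.im : ℂ) := by
          rw [hz]; simp only [map_mul, conj_I, conj_ofReal, mul_im, I_re, I_im, ofReal_re, ofReal_im]
          push_cast
          linear_combination (-(z.im : ℂ)) * I_sq
        rw [e2]
        simp only [root]; push_cast; rfl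
      rw [e] at h1
      exact h1
    · exact h0
  · rcases him.eq_or_lt with h0 | h0
    · exfalso
      have hx : 0 < z.re := by
        rcases hre.eq_or_lt with h1 | h1
        · exact absurd (Complex.ext h1.symm h0.symm) hne
        · exact h1
      refine K3 hd hd1 hr z.re (z.re ^ 2) z.re hx hx ?_
      have e : root z = ⟨((z.re : ℝ) : ℂ), -I * ((z.re ^ 2 : ℝ) : ℂ), -I * ((z.re : ℝ) : ℂ)⟩ := by
        have hz : z = (z.re : ℂ) := by
          apply Complex.ext
          · simp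
          · simp [h0.symm]
        simp only [root]
        push_cast
        rw [← hz]
      rw [e] at hlim
      exact hlim
    · exact h0

/-! ## Suffixes -/

theorem CLS_run {d : ℝ} {w : List Bool} {u : ℕ → ℂ} (hT : ∀ n, InT w (u n))
    (hm : ∀ n, Mar d (Lf w (u n)) (Nf w (u n)) (Rf w (u n))) : ∀ s v : List Bool, w = s ++ v → Run d (fun n => Tr v (u n)) := by
  have hch : ∀ s v : List Bool, w = s ++ v → ∀ n, Ch v (u n) := by
    intro s v hs n
    have h := (hT n).1
    rw [hs] at h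
    clear hs
    induction s with
    | nil => exact h
    | cons b s ih => exact ih h.1
  intro s
  induction s using List.reverseRecOn with
  | nil =>
    intro v hv
    rw [List.nil_append] at hv
    subst hv
    exact Run.top _ (fun n => ⟨Mk_Tr w (u n), Ch_Adm w (u n) (hT n).1⟩) (fun n => (hT n).2) hm
  | append_singleton s b ih =>
    intro v hv
    have hv' : w = s ++ (b :: v) := by rw [hv]; simp
    have h1 := ih (b :: v) hv'
    have h2 := hch s (b :: v) hv'
    have hp : PMA (fun n => Tr v (u n)) := fun n => ⟨Mk_Tr v (u n), Ch_Adm v (u n) (h2 n).1⟩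
    cases b with
    | true => exact Run.goL _ hp (fun n => (h2 n).2) h1
    | false => exact Run.goR _ hp (fun n => (h2 n).2) h1

/-- the extra hypothesis of KEYL and KEYR. -/
theorem CLS_gam {v : List Bool} {z : ℂ} (h : Ch v z) :
    (0 < (Lf v z * conj (Rf v z)).re ∨ 0 < (Nf v z * conj (Rf v z)).re) ∧
    (0 < (Lf v z * conj (Rf v z)).re ∨ 0 < (Lf v z * conj (Nf v z)).re) := by
  cases v with
  | nil =>
    obtain ⟨⟨hx, hy⟩, -⟩ := h
    have hn : 0 < z.re * z.re + z.im * z.im := by positivity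
    constructor
    · right
      show 0 < ((-I * z ^ 2) * conj (-I * z)).re
      have e : ((-I * z ^ 2) * conj (-I * z)).re = (z.re * z.re + z.im * z.im) * z.re := by
        simp only [pow_two, map_mul, map_neg, mul_im, mul_re, neg_re, neg_im, conj_re, conj_im, I_re, I_im]; ring
      rw [e]; positivity
    · right
      show 0 < (z * conj (-I * z ^ 2)).re
      have e : (z * conj (-I * z ^ 2)).re = (z.re * z.re + z.im * z.im) * z.im := by
        simp only [pow_two, map_mul, map_neg, mul_im, mul_re, neg_re, neg_im, conj_re, conj_im, I_re, I_im]; ring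
      rw [e]; positivity
  | cons b v =>
    obtain ⟨-, h2⟩ := h
    cases b with
    | true => exact ⟨Or.inl h2.re, Or.inl h2.re⟩
    | false => exact ⟨Or.inl h2.re, Or.inl h2.re⟩

theorem CLS_ch {d : ℝ} (hd : 0 < d) (hd1 : d ≤ 1) {w : List Bool} {u : ℕ → ℂ} {z : ℂ} (h : Tendsto u atTop (𝓝 z))
    (hrun : ∀ s v : List Bool, w = s ++ v → Run d (fun n => Tr v (u n))) (hch : ∀ s v : List Bool, w = s ++ v → ∀ n, Ch v (u n))
    (hz : z ∈ Qd) (h2 : ‖z‖ < 2) : ∀ v s : List Bool, w = s ++ v → (∃ w' : List Bool, w' <:+ w ∧ InT w' z) ∨ Ch v z := by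
  intro v
  induction v with
  | nil => intro s _; exact Or.inr ⟨hz, h2⟩
  | cons b v ih =>
    intro s hs
    have hs' : w = (s ++ [b]) ++ v := by rw [hs]; simp
    rcases ih (s ++ [b]) hs' with h3 | h3
    · exact Or.inl h3
    · have hlim := CLS_lim v h
      have hr := hrun s (b :: v) hs
      have hc := hch s (b :: v) hs
      obtain ⟨g1, g2⟩ := CLS_gam h3
      cases b with
      | true =>
        rcases KEYL hd hd1 hlim (fun n => (hc n).2) hr (Mk_Tr v z) (Ch_Adm v z h3) g1 with h4 | h4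
        · exact Or.inr ⟨h3, h4⟩
        · exact Or.inl ⟨v, ⟨s ++ [true], hs'.symm⟩, h3, h4⟩
      | false =>
        rcases KEYR hd hd1 hlim (fun n => (hc n).2) hr (Mk_Tr v z) (Ch_Adm v z h3) g2 with h4 | h4
        · exact Or.inr ⟨h3, h4⟩
        · exact Or.inl ⟨v, ⟨s ++ [false], hs'.symm⟩, h3, h4⟩

/-- block IVa: closedness in bounded depth. -/
theorem CLS : CLS_stmt := by
  intro w u z d₀ hT hlim hd₀ htL htR
  obtain ⟨d, hd, hd1, hdd⟩ : ∃ d : ℝ, 0 < d ∧ d ≤ 1 ∧ d ≤ d₀ := ⟨min d₀ 1, lt_min hd₀ one_pos, min_le_right _ _, min_le_left _ _⟩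
  have hm : ∀ n, Mar d (Lf w (u n)) (Nf w (u n)) (Rf w (u n)) := fun n =>
    CLS_mar (Ch_Adm w (u n) (hT n).1) (hT n).2 hd (hdd.trans (htL n)) (hdd.trans (htR n))
  have hrun := CLS_run hT hm
  have hch : ∀ s v : List Bool, w = s ++ v → ∀ n, Ch v (u n) := by
    intro s v hs n
    have h := (hT n).1
    rw [hs] at h
    clear hs
    induction s with
    | nil => exact h
    | cons b s ih => exact ih h.1
  have hroot : ∀ n, Ch [] (u n) := hch w [] (by simp)
  have hz : z ∈ Qd := CLS_Qd hd hd1 (fun n => (hroot n).1) hlim (hrun w [] (by simp))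
  refine ⟨hz, ?_⟩
  have hle : ‖z‖ ≤ 2 := le_of_tendsto' hlim.norm (fun n => (hroot n).2.le)
  rcases hle.eq_or_lt with h2 | h2
  · exact Or.inl h2
  · right
    rcases CLS_ch hd hd1 hlim hrun hch hz h2 w [] rfl with h | h
    · exact h
    · exact ⟨w, List.suffix_refl w, h, CLS_top hd hd1 (Ch_Adm w z h) ((CLS_lim w hlim).mar hm)⟩

end Pool.Agent.M4
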