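import Pool.Agent.helper30.M4.Alg
import Pool.Agent.helper8.M4.JAC

/-!
# Project M4 (MP_1b8d20_an, S03975), block I: the set of top points is open
-/

set_option autoImplicit false

namespace Pool.Agent.M4

open Complex ComplexConjugate Topology Filter

/-- The boundary lemma: if `θ_L = 0 < θ_R` then `Im N > 0` and the child is a strict top. -/
theorem OPN_bd {L N R : ℂ} (hM : Mk L N R) (h : Adm L N R) (hc : 0 < (N * conj R).re) (ha : 0 < (L * conj N).re)
    (e : ‖L‖ = ‖N - I * R‖) (s : ‖R‖ < ‖L - I * N‖) :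
    0 < N.im ∧ 0 < ((N * R - L) * conj R).re ∧ 0 < (N * conj (N * R - L)).re ∧
      ‖N‖ < ‖(N * R - L) - I * R‖ ∧ ‖R‖ < ‖N - I * (N * R - L)‖ := by
  obtain ⟨hl, hn, hr⟩ := h.pos
  obtain ⟨hp, ht1, ht2, T, hT, hT1, hT2, hT3⟩ := h.data
  have hN0 := ALG_N0 hM
  have hN2 := ALG_N2 hM
  have h1 := ALG_r1 L N R
  have h2 := ALG_r2 L N R
  have h3 := ALG_r3 L N R
  have qa := ALG_pyth L N
  have qb := ALG_pyth N R
  have qc := ALG_pyth L R
  have htR := ALG_gts.1 s
  have htL : normSq N + normSq R - normSq L = 2 * (N * conj R).im :=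
    le_antisymm (ALG_sle.1 e.ge) (ALG_ges.1 e.le)
  have hG : normSq (N - I * R) = normSq L := by
    rw [ALG_nsub]; linarith
  set ca := (L * conj N).re with hca
  set pa := (L * conj N).im with hpa
  set cb := (N * conj R).re with hcb
  set pb := (N * conj R).im with hpb
  set cg := (L * conj R).re with hcg
  set pg := (L * conj R).im with hpg
  set l := normSq L with hl'
  set n := normSq N with hn'
  set r := normSq R with hr'
  have hT4 : T = 2 * cb := by
    have : T ^ 2 = (2 * cb) ^ 2 := by rw [hT2, htL, ← qb]; ring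
    exact (sq_eq_sq₀ hT.le (by positivity)).1 this
  obtain ⟨u1, u2⟩ := ALG_A1 qc rfl hT1 hT.le (by positivity) ht1 ht2
  have hK : 0 < -(l * n * r * R.im) := by
    have : 0 < -R.im := by have := h.imR; linarith
    have : 0 < l * n * r * (-R.im) := by positivity
    linarith
  have hb : 0 < pb := by
    rw [htL] at hN0
    have e1 : (cg * (l + r - n) + T * pg) * pb = -(l * n * r * R.im) := by rw [← hN0, hT4]; ring
    have e2 : 0 < (cg * (l + r - n) + T * pg) * pb := by rw [e1]; exact hK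
    exact (pos_iff_pos_of_mul_pos e2).1 (by linarith)
  have uR := ALG_A2 qa rfl hT3 hT.le ha htR
  have him : 0 < N.im := by
    rw [htL] at hN2
    have e1 : (ca * (l + n - r) - T * pa) * pb = l * n * r * N.im := by rw [← hN2, hT4]; ring
    have e2 : 0 < l * n * r * N.im := by rw [← e1]; exact mul_pos (by linarith) hb
    exact (pos_iff_pos_of_mul_pos e2).1 (by positivity)
  have hX : 0 < ca - pg := by
    have e1 : n * (ca - pg) = (ca * (l + n - r) - T * pa) / 2 := by
      rw [hT4]; linear_combination h1 + (ca / 2) * htL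
    have e2 : 0 < n * (ca - pg) := by rw [e1]; linarith
    exact (pos_iff_pos_of_mul_pos e2).1 hn
  have hY : 0 < pa + cg := by
    have e1 : r * (pa + cg) = (cg * (l + r - n) + T * pg) / 2 := by
      rw [hT4]; linear_combination (-1 : ℝ) * h2 + (cg / 2) * htL
    have e2 : 0 < r * (pa + cg) := by rw [e1]; linarith
    exact (pos_iff_pos_of_mul_pos e2).1 hr
  have hXY : (ca - pg) ^ 2 + (pa + cg) ^ 2 = l ^ 2 := by
    linear_combination qa + qc - 2 * h3 + l * htL
  have hXl : ca - pg < l := by nlinarith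
  have hYl : pa + cg < l := by nlinarith
  have hprod : (N - I * R) * (N + I * R) = L * (N * R - L) := by
    unfold Mk at hM
    have e0 : (N - I * R) * (N + I * R) = N ^ 2 + R ^ 2 := by ring_nf; rw [I_sq]; ring
    rw [e0]; linear_combination hM
  have hn2 : normSq (N * R - L) = n + r + 2 * pb := by
    have e1 := congrArg normSq hprod
    rw [normSq_mul, normSq_mul, hG, ALG_nadd] at e1
    exact (mul_left_cancel₀ hl.ne' e1).symm
  have E1 : (l : ℂ) * ((N * R - L) * conj R) = ((N - I * R) * conj L) * ((N + I * R) * conj R) := by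
    rw [hl', normSq_eq_conj_mul_self]
    calc _ = conj L * (L * (N * R - L)) * conj R := by ring
      _ = _ := by rw [← hprod]; ring
  have E2 : (l : ℂ) * (N * conj (N * R - L)) = (conj (N - I * R) * L) * (N * conj (N + I * R)) := by
    rw [hl', normSq_eq_conj_mul_self]
    have e1 := congrArg conj hprod
    rw [map_mul, map_mul] at e1
    calc _ = (conj L * conj (N * R - L)) * L * N := by ring
      _ = _ := by rw [← e1]; ring
  have g1 : ((N - I * R) * conj L).re = ca - pg := by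
    rw [hca, hpg]; simp only [mul_re, mul_im, sub_re, sub_im, I_re, I_im, conj_re, conj_im]; ring
  have g2 : ((N - I * R) * conj L).im = -(pa + cg) := by
    rw [hpa, hcg]; simp only [mul_re, mul_im, sub_re, sub_im, I_re, I_im, conj_re, conj_im]; ring
  have g3 : ((N + I * R) * conj R).re = cb := by
    rw [hcb]; simp only [mul_re, mul_im, add_re, add_im, I_re, I_im, conj_re, conj_im]; ring
  have g4 : ((N + I * R) * conj R).im = pb + r := by
    rw [hpb, hr', normSq_apply]; simp only [mul_re, mul_im, add_re, add_im, I_re, I_im, conj_re, conj_im]; ring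
  have g5 : (conj (N - I * R) * L).re = ca - pg := by
    rw [hca, hpg]; simp only [mul_re, mul_im, sub_re, sub_im, I_re, I_im, conj_re, conj_im]; ring
  have g6 : (conj (N - I * R) * L).im = pa + cg := by
    rw [hpa, hcg]; simp only [mul_re, mul_im, sub_re, sub_im, I_re, I_im, conj_re, conj_im]; ring
  have g7 : (N * conj (N + I * R)).re = n + pb := by
    rw [hpb, hn', normSq_apply]; simp only [mul_re, mul_im, add_re, add_im, I_re, I_im, conj_re, conj_im]; ring
  have g8 : (N * conj (N + I * R)).im = -cb := by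
    rw [hcb]; simp only [mul_re, mul_im, add_re, add_im, I_re, I_im, conj_re, conj_im]; ring
  have f1 : l * ((N * R - L) * conj R).re = (ca - pg) * cb + (pa + cg) * (pb + r) := by
    have := congrArg Complex.re E1
    rw [re_ofReal_mul, mul_re ((N - I * R) * conj L), g1, g2, g3, g4] at this
    linarith
  have f2 : l * ((N * R - L) * conj R).im = (ca - pg) * (pb + r) - (pa + cg) * cb := by
    have := congrArg Complex.im E1
    rw [im_ofReal_mul, mul_im ((N - I * R) * conj L), g1, g2, g3, g4] at this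
    linarith
  have f3 : l * (N * conj (N * R - L)).re = (ca - pg) * (n + pb) + (pa + cg) * cb := by
    have := congrArg Complex.re E2
    rw [re_ofReal_mul, mul_re (conj (N - I * R) * L), g5, g6, g7, g8] at this
    linarith
  have f4 : l * (N * conj (N * R - L)).im = (pa + cg) * (n + pb) - (ca - pg) * cb := by
    have := congrArg Complex.im E2
    rw [im_ofReal_mul, mul_im (conj (N - I * R) * L), g5, g6, g7, g8] at this
    linarith
  refine ⟨him, ?_, ?_, ?_, ?_⟩
  · have : 0 < l * ((N * R - L) * conj R).re := by rw [f1]; positivity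
    exact (pos_iff_pos_of_mul_pos this).1 hl
  · have : 0 < l * (N * conj (N * R - L)).re := by rw [f3]; positivity
    exact (pos_iff_pos_of_mul_pos this).1 hl
  · rw [ALG_gts, hn2]
    have e1 : l * ((N * R - L) * conj R).im < l * (pb + r) := by
      rw [f2]
      have e2 : (ca - pg) * (pb + r) < l * (pb + r) := mul_lt_mul_of_pos_right hXl (by positivity)
      have e3 : 0 < (pa + cg) * cb := by positivity
      linarith
    have := lt_of_mul_lt_mul_left e1 hl.le
    linarith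
  · rw [ALG_gts, hn2]
    have e1 : l * (N * conj (N * R - L)).im < l * (n + pb) := by
      rw [f4]
      have e2 : (pa + cg) * (n + pb) < l * (n + pb) := mul_lt_mul_of_pos_right hYl (by positivity)
      have e3 : 0 < (ca - pg) * cb := by positivity
      linarith
    have := lt_of_mul_lt_mul_left e1 hl.le
    linarith

/-! ## Continuity -/

theorem OPN_cont (w : List Bool) : Continuous (Lf w) ∧ Continuous (Nf w) ∧ Continuous (Rf w) := by
  induction w with
  | nil =>
    refine ⟨?_, ?_, ?_⟩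
    · show Continuous fun z : ℂ => z
      exact continuous_id
    · show Continuous fun z : ℂ => -I * z ^ 2
      fun_prop
    · show Continuous fun z : ℂ => -I * z
      fun_prop
  | cons b w ih =>
    obtain ⟨h1, h2, h3⟩ := ih
    cases b with
    | true =>
      refine ⟨?_, ?_, ?_⟩
      · show Continuous fun z : ℂ => Nf w z
        exact h2
      · show Continuous fun z : ℂ => Nf w z * Rf w z - Lf w z
        exact (h2.mul h3).sub h1
      · show Continuous fun z : ℂ => Rf w z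
        exact h3
    | false =>
      refine ⟨?_, ?_, ?_⟩
      · show Continuous fun z : ℂ => Lf w z
        exact h1
      · show Continuous fun z : ℂ => Lf w z * Nf w z - Rf w z
        exact (h1.mul h2).sub h3
      · show Continuous fun z : ℂ => Nf w z
        exact h2

theorem OPN_goL : IsOpen {t : ℂ × ℂ × ℂ | GoL t.1 t.2.1 t.2.2} := by
  have e : {t : ℂ × ℂ × ℂ | GoL t.1 t.2.1 t.2.2} = {t : ℂ × ℂ × ℂ | 0 < t.2.1.im} ∩
      ({t : ℂ × ℂ × ℂ | 0 < (t.2.1 * conj t.2.2).re} ∩ {t : ℂ × ℂ × ℂ | ‖t.2.1 - I * t.2.2‖ < ‖t.1‖}) := by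
    ext t; exact ⟨fun h => ⟨h.im, h.re, h.lt⟩, fun h => ⟨h.1, h.2.1, h.2.2⟩⟩
  rw [e]
  refine (isOpen_lt continuous_const (by fun_prop)).inter ((isOpen_lt continuous_const ?_).inter (isOpen_lt (by fun_prop) (by fun_prop)))
  exact Complex.continuous_re.comp ((continuous_fst.comp continuous_snd).mul (Complex.continuous_conj.comp (continuous_snd.comp continuous_snd)))

theorem OPN_goR : IsOpen {t : ℂ × ℂ × ℂ | GoR t.1 t.2.1 t.2.2} := by
  have e : {t : ℂ × ℂ × ℂ | GoR t.1 t.2.1 t.2.2} = {t : ℂ × ℂ × ℂ | t.2.1.im < 0} ∩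
      ({t : ℂ × ℂ × ℂ | 0 < (t.1 * conj t.2.1).re} ∩ {t : ℂ × ℂ × ℂ | ‖t.1 - I * t.2.1‖ < ‖t.2.2‖}) := by
    ext t; exact ⟨fun h => ⟨h.im, h.re, h.lt⟩, fun h => ⟨h.1, h.2.1, h.2.2⟩⟩
  rw [e]
  refine (isOpen_lt (by fun_prop) continuous_const).inter ((isOpen_lt continuous_const ?_).inter (isOpen_lt (by fun_prop) (by fun_prop)))
  exact Complex.continuous_re.comp (continuous_fst.mul (Complex.continuous_conj.comp (continuous_fst.comp continuous_snd)))

theorem OPN_go (b : Bool) (w : List Bool) {z : ℂ} (h : Go b (Lf w z) (Nf w z) (Rf w z)) :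
    ∀ᶠ y in 𝓝 z, Go b (Lf w y) (Nf w y) (Rf w y) := by
  obtain ⟨h1, h2, h3⟩ := OPN_cont w
  have hc : Continuous fun y => (Lf w y, Nf w y, Rf w y) := h1.prodMk (h2.prodMk h3)
  cases b with
  | true => exact (OPN_goL.preimage hc).mem_nhds h
  | false => exact (OPN_goR.preimage hc).mem_nhds h

theorem OPN_Ch (w : List Bool) {z : ℂ} (h : Ch w z) : ∀ᶠ y in 𝓝 z, Ch w y := by
  induction w with
  | nil =>
    have h1 : ∀ᶠ y : ℂ in 𝓝 z, 0 < y.re := Complex.continuous_re.continuousAt.eventually (lt_mem_nhds h.1.1)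
    have h2 : ∀ᶠ y : ℂ in 𝓝 z, 0 < y.im := Complex.continuous_im.continuousAt.eventually (lt_mem_nhds h.1.2)
    have h3 : ∀ᶠ y : ℂ in 𝓝 z, ‖y‖ < 2 := continuous_norm.continuousAt.eventually (gt_mem_nhds h.2)
    filter_upwards [h1, h2, h3] with y a b c using ⟨⟨a, b⟩, c⟩
  | cons b w ih =>
    filter_upwards [ih h.1, OPN_go b w h.2] with y a b using ⟨a, b⟩

/-- strict top conditions are open. -/
theorem OPN_strict (w : List Bool) {z : ℂ} (h1 : 0 < (Nf w z * conj (Rf w z)).re) (h2 : 0 < (Lf w z * conj (Nf w z)).re)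
    (h3 : ‖Lf w z‖ < ‖Nf w z - I * Rf w z‖) (h4 : ‖Rf w z‖ < ‖Lf w z - I * Nf w z‖) :
    ∀ᶠ y in 𝓝 z, Top (Lf w y) (Nf w y) (Rf w y) := by
  obtain ⟨c1, c2, c3⟩ := OPN_cont w
  have k1 : Continuous fun y => (Nf w y * conj (Rf w y)).re :=
    Complex.continuous_re.comp (c2.mul (Complex.continuous_conj.comp c3))
  have k2 : Continuous fun y => (Lf w y * conj (Nf w y)).re :=
    Complex.continuous_re.comp (c1.mul (Complex.continuous_conj.comp c2))
  have k3 : Continuous fun y => ‖Nf w y - I * Rf w y‖ - ‖Lf w y‖ := (c2.sub (continuous_const.mul c3)).norm.sub c1.norm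
  have k4 : Continuous fun y => ‖Lf w y - I * Nf w y‖ - ‖Rf w y‖ := (c1.sub (continuous_const.mul c2)).norm.sub c3.norm
  filter_upwards [k1.continuousAt.eventually (lt_mem_nhds h1), k2.continuousAt.eventually (lt_mem_nhds h2),
    k3.continuousAt.eventually (lt_mem_nhds (sub_pos.2 h3)), k4.continuousAt.eventually (lt_mem_nhds (sub_pos.2 h4))]
    with y a b c d
  exact ⟨a, b, (sub_pos.1 c).le, (sub_pos.1 d).le, Or.inl (sub_pos.1 c)⟩

/-! ## Openness -/

theorem OPN_caseL (w : List Bool) {z : ℂ} (h : Ch w z) (h1 : 0 < (Nf w z * conj (Rf w z)).re)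
    (h2 : 0 < (Lf w z * conj (Nf w z)).re) (h3 : ‖Lf w z‖ = ‖Nf w z - I * Rf w z‖) (h4 : ‖Rf w z‖ < ‖Lf w z - I * Nf w z‖) :
    ∀ᶠ y in 𝓝 z, y ∈ TT := by
  obtain ⟨him, g1, g2, g3, g4⟩ := OPN_bd (Mk_Tr w z) (Ch_Adm w z h) h1 h2 h3 h4
  obtain ⟨c1, c2, c3⟩ := OPN_cont w
  have k0 : ∀ᶠ y in 𝓝 z, 0 < (Nf w y).im := (Complex.continuous_im.comp c2).continuousAt.eventually (lt_mem_nhds him)
  have k1 : ∀ᶠ y in 𝓝 z, 0 < (Nf w y * conj (Rf w y)).re :=
    (Complex.continuous_re.comp (c2.mul (Complex.continuous_conj.comp c3))).continuousAt.eventually (lt_mem_nhds h1)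
  have k2 := OPN_strict (true :: w) (z := z) g1 g2 g3 g4
  filter_upwards [OPN_Ch w h, k0, k1, k2] with y a0 a1 a2 a3
  rcases le_or_gt ‖Lf w y‖ ‖Nf w y - I * Rf w y‖ with hle | hlt
  · exact ⟨w, a0, RULEL (Mk_Tr w y) (Ch_Adm w y a0) a1 a2 hle⟩
  · exact ⟨true :: w, ⟨a0, ⟨a1, a2, hlt⟩⟩, a3⟩

theorem OPN_caseR (w : List Bool) {z : ℂ} (h : Ch w z) (h1 : 0 < (Nf w z * conj (Rf w z)).re)
    (h2 : 0 < (Lf w z * conj (Nf w z)).re) (h3 : ‖Lf w z‖ < ‖Nf w z - I * Rf w z‖) (h4 : ‖Rf w z‖ = ‖Lf w z - I * Nf w z‖) :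
    ∀ᶠ y in 𝓝 z, y ∈ TT := by
  obtain ⟨him, g1, g2, g3, g4⟩ := OPN_bd (ALG_mirMk (Mk_Tr w z)) (ALG_mirAdm (Ch_Adm w z h))
    (by rw [ALG_remir]; exact h2) (by rw [ALG_remir]; exact h1)
    (by rw [ALG_nmir, Complex.norm_conj]; exact h4) (by rw [ALG_nmir, Complex.norm_conj]; exact h3)
  obtain ⟨c1, c2, c3⟩ := OPN_cont w
  have him' : (Nf w z).im < 0 := by simpa using him
  have k0 : ∀ᶠ y in 𝓝 z, (Nf w y).im < 0 := (Complex.continuous_im.comp c2).continuousAt.eventually (gt_mem_nhds him')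
  have k1 : ∀ᶠ y in 𝓝 z, 0 < (Lf w y * conj (Nf w y)).re :=
    (Complex.continuous_re.comp (c1.mul (Complex.continuous_conj.comp c2))).continuousAt.eventually (lt_mem_nhds h2)
  have e : conj (Nf w z) * conj (Lf w z) - conj (Rf w z) = conj (Lf w z * Nf w z - Rf w z) := by
    rw [map_sub, map_mul]; ring
  rw [e] at g1 g2 g3 g4
  rw [ALG_remir] at g1
  rw [ALG_remir] at g2
  rw [ALG_nmir, Complex.norm_conj] at g3
  rw [ALG_nmir, Complex.norm_conj] at g4
  have k2 := OPN_strict (false :: w) (z := z) g2 g1 g4 g3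
  filter_upwards [OPN_Ch w h, k0, k1, k2] with y a0 a1 a2 a3
  rcases le_or_gt ‖Rf w y‖ ‖Lf w y - I * Nf w y‖ with hle | hlt
  · exact ⟨w, a0, RULER (Mk_Tr w y) (Ch_Adm w y a0) a1 a2 hle⟩
  · exact ⟨false :: w, ⟨a0, ⟨a1, a2, hlt⟩⟩, a3⟩

/-- OPEN: the set of the top points is open. -/
theorem OPN_open : IsOpen TT := by
  rw [isOpen_iff_mem_nhds]
  rintro z ⟨w, hC, hT⟩
  rcases hT.thL.eq_or_lt with h1 | h1
  · rcases hT.thR.eq_or_lt with h2 | h2
    · exfalso
      rcases hT.ne with h | h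
      · exact absurd h1 h.ne
      · exact absurd h2 h.ne
    · exact OPN_caseL w hC hT.reNR hT.reLN h1 h2
  · rcases hT.thR.eq_or_lt with h2 | h2
    · exact OPN_caseR w hC hT.reNR hT.reLN h1 h2
    · filter_upwards [OPN_Ch w hC, OPN_strict w hT.reNR hT.reLN h1 h2] with y a b using ⟨w, a, b⟩

theorem OPN_tri {L N R : ℂ} (h : Adm L N R) : ‖L‖ < ‖N‖ + ‖R‖ ∧ ‖N‖ < ‖L‖ + ‖R‖ ∧ ‖R‖ < ‖L‖ + ‖N‖ := by
  have hI : ‖I * R‖ = ‖R‖ := by rw [norm_mul, norm_I, one_mul]
  have h1 := h.lo
  have h2 := h.hi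
  refine ⟨?_, ?_, ?_⟩
  · have h3 : ‖L‖ ≤ ‖L - I * R‖ + ‖I * R‖ := by simpa using norm_add_le (L - I * R) (I * R)
    rw [hI] at h3; linarith
  · have h3 := norm_add_le L (I * R)
    rw [hI] at h3; linarith
  · have h3 : ‖I * R‖ ≤ ‖L‖ + ‖L - I * R‖ := by
      have := norm_sub_le L (L - I * R)
      simpa using this
    rw [hI] at h3; linarith

/-- InT_near_opn in the form of the hypothesis `hOPN` of `M4J.CLO_abs`. -/
theorem InT_near_opn (w : List Bool) (z : ℂ) (h : InT w z) :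
    ∀ᶠ y in 𝓝 z, 0 < M4J.thL (Lf w y) (Nf w y) (Rf w y) → 0 < M4J.thR (Lf w y) (Nf w y) (Rf w y) → InT w y := by
  obtain ⟨hC, hT⟩ := h
  obtain ⟨c1, c2, c3⟩ := OPN_cont w
  have k1 : ∀ᶠ y in 𝓝 z, 0 < (Nf w y * conj (Rf w y)).re :=
    (Complex.continuous_re.comp (c2.mul (Complex.continuous_conj.comp c3))).continuousAt.eventually (lt_mem_nhds hT.reNR)
  have k2 : ∀ᶠ y in 𝓝 z, 0 < (Lf w y * conj (Nf w y)).re :=
    (Complex.continuous_re.comp (c1.mul (Complex.continuous_conj.comp c2))).continuousAt.eventually (lt_mem_nhds hT.reLN)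
  filter_upwards [OPN_Ch w hC, k1, k2] with y a0 a1 a2 b1 b2
  have hA := Ch_Adm w y a0
  obtain ⟨t1, t2, t3⟩ := OPN_tri hA
  have s1 := (M4J.JAC_sgn a1 t1.le t2.le t3.le).2.1 b1
  rw [M4J.thR_eq] at b2
  have s2 := (M4J.JAC_sgn a2 t3.le (by linarith) (by linarith)).2.1 b2
  exact ⟨a0, a1, a2, s1.le, s2.le, Or.inl s1⟩

end Pool.Agent.M4
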